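import Pool.Agent.Helper28.SP.Cert

/-!
# Certificates of compatibility by matchings

A family of trees with the right degrees is a `TreeFam` if for each set `S` of labels and each set `J` of colours there is at most one
matching between `S` and `J` which is contained in a tree of the family.
-/

set_option autoImplicit false

namespace Pool.Agent.Helper96.TS

open Pool.Agent.Helper28.SO

/-- a nonzero circulation contains an alternating cycle -/
theorem exists_cycle {n d : ℕ} (h : Fin n → Fin d → ℝ) (hrow : ∀ i, ∑ c, h i c = 0) (hcol : ∀ c, ∑ i, h i c = 0)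
    (i₀ : Fin n) (c₀ : Fin d) (h0 : h i₀ c₀ ≠ 0) : ∃ (S : Finset (Fin n)) (f g : Fin n → Fin d), S.Nonempty ∧
      (∀ i ∈ S, 0 < h i (f i)) ∧ (∀ i ∈ S, h i (g i) < 0) ∧ Set.InjOn f S ∧ S.image f = S.image g := by
  classical
  have hneg : ∀ i, (∃ c, h i c < 0) → ∃ c, 0 < h i c := by
    intro i ⟨c, hc⟩
    by_contra hn
    push Not at hn
    have h1 := Finset.sum_lt_sum (s := Finset.univ) (f := fun c => h i c) (g := fun _ => (0 : ℝ)) (fun c _ => hn c)
      ⟨c, Finset.mem_univ c, hc⟩
    rw [hrow i] at h1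
    simp at h1
  have hposrow : ∀ i, (∃ c, 0 < h i c) → ∃ c, h i c < 0 := by
    intro i ⟨c, hc⟩
    by_contra hn
    push Not at hn
    have h1 := Finset.sum_lt_sum (s := Finset.univ) (g := fun c => h i c) (f := fun _ => (0 : ℝ)) (fun c _ => hn c)
      ⟨c, Finset.mem_univ c, hc⟩
    rw [hrow i] at h1
    simp at h1
  have hposcol : ∀ c, (∃ i, 0 < h i c) → ∃ i, h i c < 0 := by
    intro c ⟨i, hi⟩
    by_contra hn
    push Not at hn
    have h1 := Finset.sum_lt_sum (s := Finset.univ) (g := fun i => h i c) (f := fun _ => (0 : ℝ)) (fun i _ => hn i)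
      ⟨i, Finset.mem_univ i, hi⟩
    rw [hcol c] at h1
    simp at h1
  let P : Finset (Fin n) := Finset.univ.filter fun i => ∃ c, 0 < h i c
  have hP : i₀ ∈ P := by
    simp only [P, Finset.mem_filter, Finset.mem_univ, true_and]
    rcases lt_or_gt_of_ne h0 with h1 | h1
    · exact hneg i₀ ⟨c₀, h1⟩
    · exact ⟨c₀, h1⟩
  let a : Fin n → Fin d := fun i => if hh : ∃ c, 0 < h i c then hh.choose else c₀
  let b : Fin d → Fin n := fun c => if hh : ∃ i, h i c < 0 then hh.choose else i₀
  have ha : ∀ i ∈ P, 0 < h i (a i) := by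
    intro i hi
    have hh : ∃ c, 0 < h i c := (Finset.mem_filter.1 hi).2
    simp only [a, dif_pos hh]
    exact hh.choose_spec
  have hb : ∀ i ∈ P, h (b (a i)) (a i) < 0 := by
    intro i hi
    have hh : ∃ i', h i' (a i) < 0 := hposcol _ ⟨i, ha i hi⟩
    simp only [b, dif_pos hh]
    exact hh.choose_spec
  have hF : ∀ i ∈ P, b (a i) ∈ P := by
    intro i hi
    simp only [P, Finset.mem_filter, Finset.mem_univ, true_and]
    exact hneg _ ⟨_, hb i hi⟩
  -- a minimal nonempty closed subset
  let Q : Finset (Finset (Fin n)) := P.powerset.filter fun S => S.Nonempty ∧ ∀ i ∈ S, b (a i) ∈ S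
  have hQ : Q.Nonempty := ⟨P, by
    simp only [Q, Finset.mem_filter, Finset.mem_powerset]
    exact ⟨subset_refl P, ⟨i₀, hP⟩, hF⟩⟩
  obtain ⟨S, hS, hmin⟩ := Q.exists_min_image Finset.card hQ
  simp only [Q, Finset.mem_filter, Finset.mem_powerset] at hS
  obtain ⟨hSP, hSne, hSF⟩ := hS
  have himg : S.image (fun i => b (a i)) = S := by
    have h1 : S.image (fun i => b (a i)) ⊆ S := by
      intro x hx
      obtain ⟨i, hi, rfl⟩ := Finset.mem_image.1 hx
      exact hSF i hi
    have h2 : S.image (fun i => b (a i)) ∈ Q := by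
      simp only [Q, Finset.mem_filter, Finset.mem_powerset]
      refine ⟨h1.trans hSP, hSne.image _, ?_⟩
      intro x hx
      exact Finset.mem_image_of_mem _ (h1 hx)
    exact Finset.eq_of_subset_of_card_le h1 (hmin _ h2)
  have hinj : Set.InjOn (fun i => b (a i)) S := by
    rw [← Finset.card_image_iff, himg]
  have hainj : Set.InjOn a S := by
    intro i hi j hj hij
    exact hinj hi hj (by simp only [hij])
  let pre : Fin n → Fin n := fun i => if hh : ∃ j ∈ S, b (a j) = i then hh.choose else i
  have hpre : ∀ i ∈ S, pre i ∈ S ∧ b (a (pre i)) = i := by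
    intro i hi
    have hh : ∃ j ∈ S, b (a j) = i := by
      rw [← himg] at hi
      exact Finset.mem_image.1 hi
    simp only [pre, dif_pos hh]
    exact hh.choose_spec
  have hpreF : ∀ j ∈ S, pre (b (a j)) = j := by
    intro j hj
    have h1 := hpre _ (hSF j hj)
    exact hinj h1.1 hj h1.2
  refine ⟨S, a, fun i => a (pre i), hSne, fun i hi => ha i (hSP hi), ?_, hainj, ?_⟩
  · intro i hi
    have h1 := hpre i hi
    have h2 := hb _ (hSP h1.1)
    rw [h1.2] at h2
    exact h2
  · ext c
    simp only [Finset.mem_image]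
    constructor
    · rintro ⟨j, hj, rfl⟩
      exact ⟨b (a j), hSF j hj, by rw [hpreF j hj]⟩
    · rintro ⟨i, hi, rfl⟩
      exact ⟨pre i, (hpre i hi).1, rfl⟩

theorem treeFam_of_match {n d : ℕ} (T : (Fin d → ℕ) → Fin n → Finset (Fin d))
    (hdeg : ∀ v : Fin d → ℕ, ∑ c, v c = n - 1 →
      ∀ c, (Finset.univ.filter (fun i => c ∈ T v i)).card = v c + 1)
    (hm : ∀ v w : Fin d → ℕ, ∑ c, v c = n - 1 → ∑ c, w c = n - 1 → ∀ (S : Finset (Fin n)) (f g : Fin n → Fin d),
      (∀ i ∈ S, f i ∈ T v i) → (∀ i ∈ S, g i ∈ T w i) → Set.InjOn f S → S.image f = S.image g → ∀ i ∈ S, f i = g i) :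
    TreeFam n d T := by
  refine ⟨hdeg, ?_⟩
  intro v w hv hw g g' hg hg' hsg hsg' hrow hcol
  by_contra hne
  obtain ⟨i₀, c₀, h0⟩ : ∃ i c, g i c - g' i c ≠ 0 := by
    by_contra hn
    push Not at hn
    apply hne
    funext i c
    exact sub_eq_zero.1 (hn i c)
  obtain ⟨S, f, k, hS, hf, hk, hinj, himg⟩ := exists_cycle (fun i c => g i c - g' i c)
    (fun i => by rw [Finset.sum_sub_distrib, hrow i, sub_self])
    (fun c => by rw [Finset.sum_sub_distrib, hcol c, sub_self]) i₀ c₀ h0
  have hfT : ∀ i ∈ S, f i ∈ T v i := by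
    intro i hi
    by_contra hn
    have h1 := hf i hi
    have h2 := hsg i (f i) hn
    have h3 := hg' i (f i)
    simp only [h2] at h1
    linarith
  have hkT : ∀ i ∈ S, k i ∈ T w i := by
    intro i hi
    by_contra hn
    have h1 := hk i hi
    have h2 := hsg' i (k i) hn
    have h3 := hg i (k i)
    simp only [h2] at h1
    linarith
  obtain ⟨i, hi⟩ := hS
  have h1 := hm v w hv hw S f k hfT hkT hinj himg i hi
  have h2 := hf i hi
  have h3 := hk i hi
  rw [← h1] at h3
  linarith

/-! ### lists of edges -/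

/-- the matchings of the labels in the list with the colours in the mask `J`, as lists of edges `i * d + c` -/
def am (d : ℕ) : List ℕ → ℕ → List (List ℕ)
  | [], J => cond (Nat.beq J 0) [[]] []
  | i :: l, J => (List.range d).flatMap fun c =>
      cond (J.testBit c) ((am d l (J ^^^ 2 ^ c)).map fun e => (i * d + c) :: e) []

/-- the colours used -/
def jm (f : ℕ → ℕ) : List ℕ → ℕ
  | [] => 0
  | i :: l => jm f l ^^^ 2 ^ f i

theorem jm_testBit (f : ℕ → ℕ) (l : List ℕ) (hnd : l.Nodup) (hinj : ∀ i ∈ l, ∀ j ∈ l, f i = f j → i = j) (b : ℕ) :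
    (jm f l).testBit b = true ↔ ∃ i ∈ l, f i = b := by
  induction l with
  | nil => simp [jm]
  | cons i l ih =>
    have hnd' := (List.nodup_cons.1 hnd)
    have ih' := ih hnd'.2 (fun i hi j hj => hinj i (List.mem_cons_of_mem _ hi) j (List.mem_cons_of_mem _ hj))
    rw [jm, Nat.testBit_xor]
    by_cases hb : f i = b
    · have h1 : (jm f l).testBit b = false := by
        rw [Bool.eq_false_iff]
        intro h
        obtain ⟨j, hj, hjb⟩ := ih'.1 h
        have := hinj i List.mem_cons_self j (List.mem_cons_of_mem _ hj) (hb.trans hjb.symm)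
        subst this
        exact hnd'.1 hj
      rw [h1, hb]
      simp only [Nat.testBit_two_pow_self, Bool.false_xor, true_iff]
      exact ⟨i, List.mem_cons_self, hb⟩
    · rw [Nat.testBit_two_pow_of_ne hb, Bool.xor_false, ih']
      constructor
      · rintro ⟨j, hj, hjb⟩
        exact ⟨j, List.mem_cons_of_mem _ hj, hjb⟩
      · rintro ⟨j, hj, hjb⟩
        rcases List.mem_cons.1 hj with rfl | hj
        · exact absurd hjb hb
        · exact ⟨j, hj, hjb⟩

theorem mem_am (d : ℕ) (f : ℕ → ℕ) (l : List ℕ) (hnd : l.Nodup) (hinj : ∀ i ∈ l, ∀ j ∈ l, f i = f j → i = j)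
    (hf : ∀ i ∈ l, f i < d) : (l.map fun i => i * d + f i) ∈ am d l (jm f l) := by
  induction l with
  | nil => simp [am, jm]
  | cons i l ih =>
    have hnd' := (List.nodup_cons.1 hnd)
    have hinj' : ∀ i ∈ l, ∀ j ∈ l, f i = f j → i = j :=
      fun i hi j hj => hinj i (List.mem_cons_of_mem _ hi) j (List.mem_cons_of_mem _ hj)
    have ih' := ih hnd'.2 hinj' (fun i hi => hf i (List.mem_cons_of_mem _ hi))
    rw [am, List.mem_flatMap]
    refine ⟨f i, List.mem_range.2 (hf i List.mem_cons_self), ?_⟩
    have h1 : (jm f (i :: l)).testBit (f i) = true :=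
      (jm_testBit f _ hnd hinj _).2 ⟨i, List.mem_cons_self, rfl⟩
    have h2 : jm f (i :: l) ^^^ 2 ^ f i = jm f l := by
      rw [jm, Nat.xor_assoc, Nat.xor_self, Nat.xor_zero]
    rw [h1, cond_true, h2, List.map_cons]
    exact List.mem_map_of_mem ih'

/-- all groups of matchings -/
def groupsOf (n d : ℕ) : List (List (List ℕ)) :=
  (List.range n).sublists.flatMap fun l => (List.range (2 ^ d)).map fun J => am d l J

/-- the plane of the edge `b`: bit `j` says that the tree number `j` contains the edge -/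
def plane (M D b : ℕ) : ℕ := (D >>> (M * b)) % 2 ^ M

/-- some tree contains the edges of the list -/
def hit (M D : ℕ) (e : List ℕ) : Bool := !(Nat.beq (e.foldl (fun a b => a &&& plane M D b) (2 ^ M - 1)) 0)

/-- at most one of the lists is contained in a tree -/
def one (M D : ℕ) : List (List ℕ) → Bool
  | [] => true
  | e :: L => cond (hit M D e) (L.all fun e' => !hit M D e') (one M D L)

theorem one_sound {M D : ℕ} {L : List (List ℕ)} (h : one M D L = true) {e e' : List ℕ} (he : e ∈ L) (he' : e' ∈ L)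
    (h1 : hit M D e = true) (h2 : hit M D e' = true) : e = e' := by
  induction L with
  | nil => simp at he
  | cons x L ih =>
    rw [one] at h
    cases hx : hit M D x with
    | true =>
      rw [hx, cond_true, List.all_eq_true] at h
      have key : ∀ y ∈ L, hit M D y = true → False := by
        intro y hy h3
        have := h y hy
        rw [h3] at this
        simp at this
      rcases List.mem_cons.1 he with h4 | h4
      · rcases List.mem_cons.1 he' with h5 | h5
        · rw [h4, h5]
        · exact (key _ h5 h2).elim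
      · exact (key _ h4 h1).elim
    | false =>
      rw [hx, cond_false] at h
      rcases List.mem_cons.1 he with rfl | he
      · rw [hx] at h1
        simp at h1
      · rcases List.mem_cons.1 he' with rfl | he'
        · rw [hx] at h2
          simp at h2
        · exact ih h he he'

theorem hit_of {M D : ℕ} {e : List ℕ} {j : ℕ} (hj : j < M) (h : ∀ b ∈ e, D.testBit (M * b + j) = true) :
    hit M D e = true := by
  have key : ∀ (e : List ℕ) (a : ℕ), a.testBit j = true → (∀ b ∈ e, D.testBit (M * b + j) = true) →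
      (e.foldl (fun a b => a &&& plane M D b) a).testBit j = true := by
    intro e
    induction e with
    | nil => intro a ha _; simpa using ha
    | cons b e ih =>
      intro a ha hb
      rw [List.foldl_cons]
      apply ih
      · rw [Nat.testBit_and, ha, Bool.true_and, plane, Nat.testBit_mod_two_pow, Nat.testBit_shiftRight]
        simp [hj, hb b List.mem_cons_self]
      · intro b' hb'
        exact hb b' (List.mem_cons_of_mem _ hb')
  have h1 := key e (2 ^ M - 1) (by rw [Nat.testBit_two_pow_sub_one]; simp [hj]) h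
  unfold hit
  cases hb : Nat.beq (e.foldl (fun a b => a &&& plane M D b) (2 ^ M - 1)) 0 with
  | false => rfl
  | true =>
    rw [Nat.eq_of_beq_eq_true hb] at h1
    simp at h1

/-- the family of trees of a table: `L` is the list of the positions -/
def famT (n d : ℕ) (L : List (Fin d → ℕ)) (M D : ℕ) (v : Fin d → ℕ) (i : Fin n) : Finset (Fin d) :=
  Finset.univ.filter fun c => D.testBit (M * (i.1 * d + c.1) + L.idxOf v) = true

theorem treeFam_of_plane {n d : ℕ} (L : List (Fin d → ℕ)) (hL : ∀ v : Fin d → ℕ, ∑ c, v c = n - 1 → v ∈ L) (M D : ℕ)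
    (hM : L.length = M) (G : List (List (List ℕ))) (hG : ∀ e ∈ groupsOf n d, e ∈ G)
    (hone : G.all (one M D) = true)
    (hdeg : ∀ v ∈ L, ∀ c, (Finset.univ.filter (fun i => c ∈ famT n d L M D v i)).card = v c + 1) :
    TreeFam n d (famT n d L M D) := by
  classical
  refine treeFam_of_match _ (fun v hv c => hdeg v (hL v hv) c) ?_
  intro v w hv hw S f g hf hg hinj himg
  have hv' := hL v hv
  have hw' := hL w hw
  -- functions on the natural numbers
  let l : List ℕ := (List.range n).filter fun i => decide (∃ k ∈ S, k.1 = i)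
  have hl : ∀ i, i ∈ l ↔ ∃ k ∈ S, k.1 = i := by
    intro i
    simp only [l, List.mem_filter, List.mem_range, decide_eq_true_eq]
    constructor
    · exact fun h => h.2
    · rintro ⟨k, hk, rfl⟩
      exact ⟨k.2, k, hk, rfl⟩
  have hnd : l.Nodup := List.Nodup.filter _ List.nodup_range
  let nf : (Fin n → Fin d) → ℕ → ℕ := fun f i => if h : i < n then (f ⟨i, h⟩).1 else 0
  have hnf : ∀ (f : Fin n → Fin d) (k : Fin n), nf f k.1 = (f k).1 := by
    intro f k
    simp [nf]
  have hginj : Set.InjOn g S := by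
    rw [← Finset.card_image_iff, ← himg, Finset.card_image_iff]
    exact hinj
  have hinjl : ∀ f : Fin n → Fin d, Set.InjOn f S → ∀ i ∈ l, ∀ j ∈ l, nf f i = nf f j → i = j := by
    intro f hf i hi j hj hij
    obtain ⟨k, hk, rfl⟩ := (hl i).1 hi
    obtain ⟨k', hk', rfl⟩ := (hl j).1 hj
    rw [hnf, hnf] at hij
    rw [hf hk hk' (Fin.ext hij)]
  have hlt : ∀ f : Fin n → Fin d, ∀ i ∈ l, nf f i < d := by
    intro f i hi
    obtain ⟨k, hk, rfl⟩ := (hl i).1 hi
    rw [hnf]
    exact (f k).2
  have hjm : jm (nf f) l = jm (nf g) l := by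
    apply Nat.eq_of_testBit_eq
    intro b
    rw [Bool.eq_iff_iff, jm_testBit _ _ hnd (hinjl f hinj), jm_testBit _ _ hnd (hinjl g hginj)]
    have key : ∀ f : Fin n → Fin d, (∃ i ∈ l, nf f i = b) ↔ ∃ c ∈ S.image f, c.1 = b := by
      intro f
      constructor
      · rintro ⟨i, hi, hib⟩
        obtain ⟨k, hk, rfl⟩ := (hl i).1 hi
        rw [hnf] at hib
        exact ⟨f k, Finset.mem_image_of_mem _ hk, hib⟩
      · rintro ⟨c, hc, hcb⟩
        obtain ⟨k, hk, rfl⟩ := Finset.mem_image.1 hc
        exact ⟨k.1, (hl _).2 ⟨k, hk, rfl⟩, by rw [hnf]; exact hcb⟩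
    rw [key, key, himg]
  have hJ : jm (nf f) l < 2 ^ d := by
    apply Nat.lt_pow_two_of_testBit
    intro b hb
    rw [Bool.eq_false_iff]
    intro h
    obtain ⟨i, hi, hib⟩ := (jm_testBit _ _ hnd (hinjl f hinj) b).1 h
    have := hlt f i hi
    omega
  have hgrp : am d l (jm (nf f) l) ∈ G := by
    apply hG
    unfold groupsOf
    rw [List.mem_flatMap]
    refine ⟨l, ?_, ?_⟩
    · rw [List.mem_sublists]
      exact List.filter_sublist
    · exact List.mem_map_of_mem (List.mem_range.2 hJ)
  rw [List.all_eq_true] at hone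
  have hone' := hone _ hgrp
  have e1 := mem_am d (nf f) l hnd (hinjl f hinj) (hlt f)
  have e2 := mem_am d (nf g) l hnd (hinjl g hginj) (hlt g)
  rw [← hjm] at e2
  have hitf : ∀ (u : Fin d → ℕ) (f : Fin n → Fin d), u ∈ L → (∀ i ∈ S, f i ∈ famT n d L M D u i) →
      hit M D (l.map fun i => i * d + nf f i) = true := by
    intro u f hu hf
    apply hit_of (j := L.idxOf u)
    · rw [← hM]
      exact List.idxOf_lt_length_iff.2 hu
    · intro b hb
      obtain ⟨i, hi, rfl⟩ := List.mem_map.1 hb
      obtain ⟨k, hk, rfl⟩ := (hl i).1 hi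
      have h1 := hf k hk
      simp only [famT, Finset.mem_filter, Finset.mem_univ, true_and] at h1
      rw [hnf]
      exact h1
  have heq := one_sound hone' e1 e2 (hitf v f hv' hf) (hitf w g hw' hg)
  intro i hi
  have hil : i.1 ∈ l := (hl _).2 ⟨i, hi, rfl⟩
  have h3 := List.map_inj_left.1 heq i.1 hil
  rw [hnf, hnf] at h3
  exact Fin.ext (by omega)

end Pool.Agent.Helper96.TS
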