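import Pool.Agent.Helper96.TS.Nf
import Pool.Agent.Helper96.TS.MCert
import Pool.Agent.Helper28.SP.Regular

/-!
# Certificates for single families
-/

set_option autoImplicit false

namespace Pool.Agent.Helper96.TS

open Pool.Agent.Helper28.SO

/-! ### keys -/

/-- a small number which determines a position: the first `r` digits in base `5` -/
def k5 (r x : ℕ) : ℕ :=
  Nat.rec (motive := fun _ => ℕ → ℕ) (fun _ => 0) (fun _ ih x => Nat.add (Nat.mod x 64) (Nat.mul 5 (ih (Nat.div x 64)))) r x

/-- the key of a position -/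
def K5 (r x : ℕ) : ℕ := Nat.pow 2 (k5 r x)

theorem same_of_key {n : ℕ} (x y : Fin n → ℕ) (hx : Function.Injective x) (hy : Function.Injective y)
    (h : ∑ k, 2 ^ x k = ∑ k, 2 ^ y k) : ∃ π : Equiv.Perm (Fin n), ∀ k, x k = y (π k) := by
  classical
  have e : ∀ z : Fin n → ℕ, Function.Injective z → ∑ k, 2 ^ z k = ∑ i ∈ Finset.univ.image z, 2 ^ i := by
    intro z hz
    rw [Finset.sum_image (fun a _ b _ hab => hz hab)]
  rw [e x hx, e y hy] at h
  have h2 := Finset.geomSum_injective (le_refl 2) h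
  have h3 : ∀ k, ∃ j, y j = x k := by
    intro k
    have h4 : x k ∈ Finset.univ.image y := by
      rw [← h2]
      exact Finset.mem_image_of_mem _ (Finset.mem_univ k)
    obtain ⟨j, -, hj⟩ := Finset.mem_image.1 h4
    exact ⟨j, hj⟩
  choose σ hσ using h3
  have hσi : Function.Injective σ := by
    intro i j hij
    apply hx
    rw [← hσ i, ← hσ j, hij]
  exact ⟨Equiv.ofBijective σ ((Finite.injective_iff_bijective).1 hσi), fun k => (hσ k).symm⟩

/-- some realised family has the given key -/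
def Crt (n e K : ℕ) : Prop :=
  ∃ u : Fin n → Fin e → ℕ, TRealized n e u ∧ Function.Injective (fun k => k5 (e - 1) (code (u k))) ∧
    ∑ k, 2 ^ k5 (e - 1) (code (u k)) = K

theorem tRealized_of_crt {m e K : ℕ} (h : Crt (m + 1) e K) (hnd : ((PP m e).map fun p => k5 (e - 1) (code p)).Nodup)
    (w : Fin (m + 1) → Fin e → ℕ) (hw : ∀ k, ∑ c, w k c = m) (hwi : Function.Injective w)
    (hk : ∑ k, 2 ^ k5 (e - 1) (code (w k)) = K) : TRealized (m + 1) e w := by
  obtain ⟨u, hu, hui, huk⟩ := h
  have hinj : ∀ p ∈ PP m e, ∀ q ∈ PP m e, k5 (e - 1) (code p) = k5 (e - 1) (code q) → p = q := by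
    intro p hp q hq hpq
    exact List.inj_on_of_nodup_map hnd hp hq hpq
  have hus : ∀ k, ∑ c, u k c = m := by
    obtain ⟨T, -, h2, -⟩ := hu
    exact h2
  obtain ⟨π, hπ⟩ := same_of_key (fun k => k5 (e - 1) (code (w k))) (fun k => k5 (e - 1) (code (u k)))
    (fun i j hij => hwi (hinj _ ((mem_PP _).2 (hw i)) _ ((mem_PP _).2 (hw j)) hij)) hui (hk.trans huk.symm)
  have h1 := hu.perm_label π
  have h2 : (fun k => u (π k)) = w := by
    funext k
    exact (hinj _ ((mem_PP _).2 (hw k)) _ ((mem_PP _).2 (hus _)) (hπ k)).symm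
  rwa [h2] at h1

/-! ### small loops -/

/-- a fast version of `∀ i < n` -/
def allN (n : ℕ) (p : ℕ → Bool) : Bool :=
  Nat.rec (motive := fun _ => Bool) true (fun k ih => Bool.rec (motive := fun _ => Bool) false ih (p k)) n

theorem allN_sound (n : ℕ) (p : ℕ → Bool) (h : allN n p = true) : ∀ i < n, p i = true := by
  induction n with
  | zero => intro i hi; omega
  | succ n ih =>
    have h2 : allN (n + 1) p = Bool.rec (motive := fun _ => Bool) false (allN n p) (p n) := rfl
    rw [h2] at h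
    cases hp : p n with
    | false =>
      rw [hp] at h
      simp at h
    | true =>
      rw [hp] at h
      intro i hi
      rcases Nat.lt_succ_iff_lt_or_eq.1 hi with h3 | h3
      · exact ih h i h3
      · rw [h3]
        exact hp

/-- a fast sum -/
def sumN (n : ℕ) (f : ℕ → ℕ) : ℕ := Nat.rec (motive := fun _ => ℕ) 0 (fun k ih => Nat.add ih (f k)) n

theorem sumN_eq (n : ℕ) (f : ℕ → ℕ) : sumN n f = ∑ i : Fin n, f i.1 := by
  induction n with
  | zero => rfl
  | succ n ih =>
    rw [Fin.sum_univ_castSucc]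
    have h2 : sumN (n + 1) f = sumN n f + f n := rfl
    rw [h2, ih]
    rfl

theorem code_sum {e : ℕ} (p : Fin e → ℕ) : code p = ∑ c, p c * 64 ^ c.1 := by
  induction e with
  | zero => rfl
  | succ e ih =>
    have h1 : code p = p 0 + 64 * code (fun c => p c.succ) := by
      unfold code
      rw [List.ofFn_succ]
      rfl
    rw [h1, ih, Fin.sum_univ_succ, Finset.mul_sum]
    congr 1
    · simp
    · refine Finset.sum_congr rfl fun c _ => ?_
      rw [Fin.val_succ, pow_succ]
      ring

/-! ### regular families -/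

/-- integer weights with prescribed minimisers -/
theorem tRealized_of_nat {n e : ℕ} (hn : 1 ≤ n) (he : 1 ≤ e) (A : Fin n → Fin e → ℕ) (σ : Fin n → Fin n → Fin e)
    (hσ : ∀ i j, i ≠ j → ∀ k, k ≠ σ i j → A j (σ i j) + A i k < A j k + A i (σ i j)) :
    TRealized n e (fun i k => (Finset.univ.filter (fun j => j ≠ i ∧ σ i j = k)).card) := by
  obtain ⟨α, h1, h2⟩ := exists_generic_near (ι := Fin 0) (κ := Fin n × Fin e) (fun _ => (0 : ℝ))
    linearIndependent_empty_type (fun p => (A p.1 p.2 : ℝ)) (1 / 8) (by norm_num)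
  refine tRealized_of_weights hn he (fun i c => α (i, c)) (h2.comp Sum.inr Sum.inr_injective) _ σ ?_ (fun i k => rfl)
  intro i j hij k hk
  have h3 : ((A j (σ i j) : ℝ)) + A i k + 1 ≤ A j k + A i (σ i j) := by exact_mod_cast hσ i j hij k hk
  have a1 := abs_lt.1 (h1 (j, σ i j))
  have a2 := abs_lt.1 (h1 (i, σ i j))
  have a3 := abs_lt.1 (h1 (j, k))
  have a4 := abs_lt.1 (h1 (i, k))
  simp only at a1 a2 a3 a4 ⊢
  linarith [a1.1, a1.2, a2.1, a2.2, a3.1, a3.2, a4.1, a4.2]

/-- digits of six bits -/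
def dg6 (A c : ℕ) : ℕ := Nat.mod (Nat.shiftRight A (Nat.mul 6 c)) 64

/-- digits of three bits -/
def dg3 (S c : ℕ) : ℕ := Nat.mod (Nat.shiftRight S (Nat.mul 3 c)) 8

/-- the check of the weights for one pair -/
def prB (e A i j s : ℕ) : Bool :=
  Bool.rec (motive := fun _ => Bool) false
    (allN e fun k => Bool.rec (motive := fun _ => Bool)
      (Nat.ble (Nat.succ (Nat.add (dg6 A (Nat.add (Nat.mul e j) s)) (dg6 A (Nat.add (Nat.mul e i) k))))
        (Nat.add (dg6 A (Nat.add (Nat.mul e j) k)) (dg6 A (Nat.add (Nat.mul e i) s)))) true (Nat.beq k s))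
    (Nat.ble (Nat.succ s) e)

/-- the check of the weights -/
def rgB (n e A S : ℕ) : Bool :=
  allN n fun i => allN n fun j => Bool.rec (motive := fun _ => Bool)
    (prB e A i j (dg3 S (Nat.add (Nat.mul n i) j))) true (Nat.beq i j)

/-- the code of the position of the label `i` -/
def cuN (n S i : ℕ) : ℕ :=
  sumN n fun j => Bool.rec (motive := fun _ => ℕ) (Nat.pow 64 (dg3 S (Nat.add (Nat.mul n i) j))) 0 (Nat.beq i j)

/-- the numbers increase -/
def incB (n : ℕ) (f : ℕ → ℕ) : Bool := allN (Nat.pred n) fun i => Nat.ble (Nat.succ (f i)) (f (Nat.succ i))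

theorem incB_sound (n : ℕ) (f : ℕ → ℕ) (h : incB n f = true) : ∀ i j, i < j → j < n → f i < f j := by
  intro i j hij
  induction j with
  | zero => omega
  | succ j ih =>
    intro hj
    have h1 := allN_sound _ _ h j (by
      show j < n - 1
      omega)
    have h2 : f j + 1 ≤ f (j + 1) := Nat.le_of_ble_eq_true h1
    rcases Nat.lt_succ_iff_lt_or_eq.1 hij with h3 | h3
    · have := ih h3 (by omega)
      omega
    · rw [h3]
      omega

/-- the certificate of a regular family -/
def rgC (n e K A S : ℕ) : Bool :=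
  Bool.rec (motive := fun _ => Bool) false
    (Bool.rec (motive := fun _ => Bool) false (rgB n e A S) (Nat.beq (sumN n fun i => K5 (Nat.pred e) (cuN n S i)) K))
    (incB n fun i => k5 (Nat.pred e) (cuN n S i))

theorem bool_rec_true {x y : Bool} (h : Bool.rec (motive := fun _ => Bool) false y x = true) : x = true ∧ y = true := by
  cases x with
  | false => simp at h
  | true => exact ⟨rfl, h⟩

theorem crt_of_keys {n e K : ℕ} (u : Fin n → Fin e → ℕ) (hu : TRealized n e u) (f : ℕ → ℕ)
    (hf : ∀ i : Fin n, code (u i) = f i.1) (h1 : incB n (fun i => k5 (Nat.pred e) (f i)) = true)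
    (h2 : Nat.beq (sumN n fun i => K5 (Nat.pred e) (f i)) K = true) : Crt n e K := by
  refine ⟨u, hu, ?_, ?_⟩
  · intro i j hij
    simp only [hf] at hij
    by_contra hne
    rcases lt_or_gt_of_ne hne with h | h
    · have := incB_sound n _ h1 i.1 j.1 h j.2
      exact absurd hij this.ne
    · have := incB_sound n _ h1 j.1 i.1 h i.2
      exact absurd hij this.ne'
  · rw [← Nat.eq_of_beq_eq_true h2, sumN_eq]
    refine Finset.sum_congr rfl fun i _ => ?_
    rw [hf]
    rfl

theorem crt_of_rgC {n e K A S : ℕ} (hn : 1 ≤ n) (he : 1 ≤ e) (h : rgC n e K A S = true) : Crt n e K := by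
  unfold rgC at h
  obtain ⟨h1, h⟩ := bool_rec_true h
  obtain ⟨h2, h3⟩ := bool_rec_true h
  have key : ∀ i j : Fin n, i ≠ j → dg3 S (n * i.1 + j.1) < e ∧
      ∀ k < e, k ≠ dg3 S (n * i.1 + j.1) → dg6 A (e * j.1 + dg3 S (n * i.1 + j.1)) + dg6 A (e * i.1 + k) <
        dg6 A (e * j.1 + k) + dg6 A (e * i.1 + dg3 S (n * i.1 + j.1)) := by
    intro i j hij
    have h4 := allN_sound _ _ (allN_sound _ _ h3 i.1 i.2) j.1 j.2
    have h5 : Nat.beq i.1 j.1 = false := by
      rw [← Bool.not_eq_true]
      intro hb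
      exact hij (Fin.ext (Nat.eq_of_beq_eq_true hb))
    simp only [h5] at h4
    unfold prB at h4
    obtain ⟨h6, h7⟩ := bool_rec_true h4
    refine ⟨Nat.le_of_ble_eq_true h6, ?_⟩
    intro k hk hks
    have h8 := allN_sound _ _ h7 k hk
    have h9 : Nat.beq k (dg3 S (Nat.add (Nat.mul n i.1) j.1)) = false := by
      rw [← Bool.not_eq_true]
      intro hb
      exact hks (Nat.eq_of_beq_eq_true hb)
    simp only [h9] at h8
    exact Nat.le_of_ble_eq_true h8
  let σ : Fin n → Fin n → Fin e := fun i j =>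
    if h : dg3 S (n * i.1 + j.1) < e then ⟨dg3 S (n * i.1 + j.1), h⟩ else ⟨0, by omega⟩
  have hσ : ∀ i j, i ≠ j → (σ i j).1 = dg3 S (n * i.1 + j.1) := by
    intro i j hij
    simp only [σ]
    rw [dif_pos (key i j hij).1]
  have hT := tRealized_of_nat hn he (fun i c => dg6 A (e * i.1 + c.1)) σ (by
    intro i j hij k hk
    have h4 := (key i j hij).2 k.1 k.2 (by
      intro h5
      apply hk
      apply Fin.ext
      rw [hσ i j hij, h5])
    rw [hσ i j hij]
    exact h4)
  refine crt_of_keys _ hT (cuN n S) ?_ h1 h2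
  intro i
  rw [code_sum, cuN, sumN_eq]
  have e1 : ∀ c : Fin e, (Finset.univ.filter (fun j => j ≠ i ∧ σ i j = c)).card * 64 ^ c.1 =
      ∑ j : Fin n, if j ≠ i ∧ σ i j = c then 64 ^ c.1 else 0 := by
    intro c
    rw [← Finset.sum_filter, Finset.sum_const, smul_eq_mul]
  simp only [e1]
  rw [Finset.sum_comm]
  refine Finset.sum_congr rfl fun j _ => ?_
  by_cases hij : j = i
  · subst hij
    have h5 : Nat.beq j.1 j.1 = true := Nat.beq_refl _
    simp only [h5]
    simp
  · have h5 : Nat.beq i.1 j.1 = false := by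
      rw [← Bool.not_eq_true]
      intro hb
      exact hij (Fin.ext (Nat.eq_of_beq_eq_true hb)).symm
    simp only [h5]
    have e2 : ∀ c : Fin e, (if j ≠ i ∧ σ i j = c then 64 ^ c.1 else 0) = if σ i j = c then 64 ^ c.1 else 0 := by
      intro c
      simp [hij]
    simp only [e2]
    rw [Finset.sum_ite_eq Finset.univ (σ i j) (fun c => 64 ^ c.1), if_pos (Finset.mem_univ _), hσ i j (Ne.symm hij)]
    rfl

end Pool.Agent.Helper96.TS
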