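import Pool.Agent.Helper96.TS.TabC

/-!
# The finite part: one head
-/

set_option autoImplicit false

namespace Pool.Agent.Helper96.TS

open Pool.Agent.Helper28.SO
open Helper13.TS (SpreadOut)

theorem dg6_pk (l : List ℕ) (hl : ∀ a ∈ l, a < 64) : ∀ c (hc : c < l.length), dg6 (pk 0 l) c = l[c] := by
  induction l with
  | nil => intro c hc; simp at hc
  | cons a l ih =>
    intro c hc
    have ha := hl a List.mem_cons_self
    have ih' := ih (fun b hb => hl b (List.mem_cons_of_mem _ hb))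
    cases c with
    | zero =>
      show (pk 0 (a :: l) >>> (6 * 0)) % 64 = a
      rw [Nat.mul_zero, Nat.shiftRight_zero, pk]
      omega
    | succ c =>
      have h1 := ih' c (by simpa using hc)
      rw [List.getElem_cons_succ, ← h1]
      show (pk 0 (a :: l) >>> (6 * (c + 1))) % 64 = (pk 0 l >>> (6 * c)) % 64
      rw [show 6 * (c + 1) = 6 + 6 * c by ring, Nat.shiftRight_add]
      have h2 : pk 0 (a :: l) >>> 6 = pk 0 l := by
        rw [Nat.shiftRight_eq_div_pow, pk]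
        omega
      rw [h2]

theorem dg6_code {e : ℕ} (p : Fin e → ℕ) (hp : ∀ c, p c < 64) (c : Fin e) : dg6 (code p) c.1 = p c := by
  unfold code
  rw [dg6_pk _ (by
    intro a ha
    rw [List.mem_ofFn] at ha
    obtain ⟨c, rfl⟩ := ha
    exact hp c) c.1 (by simp)]
  simp

/-- the test for the order of the column sums -/
def difT (m c : ℕ) : CT := ⟨fun x => Nat.sub (Nat.add m (dg6 x c)) (dg6 x (Nat.succ c)), (m + 1) * m, 200 + c⟩

/-- the test for a column sum -/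
def colT (m c : ℕ) : CT := ⟨fun x => dg6 x c, m, 0⟩

theorem difT_sum {m e : ℕ} (hm : m ≤ 5) (w : Fin (m + 1) → Fin e → ℕ) (hw : ∀ k, ∑ c, w k c = m) (c : ℕ)
    (hc : c + 1 < e) :
    (∑ k, (difT m c).q (code (w k))) + ∑ k, w k ⟨c + 1, hc⟩ = (m + 1) * m + ∑ k, w k ⟨c, by omega⟩ := by
  have h1 : ∀ k, (difT m c).q (code (w k)) + w k ⟨c + 1, hc⟩ = m + w k ⟨c, by omega⟩ := by
    intro k
    have h2 := fun x => le_of_sum (hw k).le x
    have e1 : dg6 (code (w k)) c = w k ⟨c, by omega⟩ :=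
      dg6_code (w k) (fun x => by have := h2 x; omega) ⟨c, by omega⟩
    have e2 : dg6 (code (w k)) (c + 1) = w k ⟨c + 1, hc⟩ :=
      dg6_code (w k) (fun x => by have := h2 x; omega) ⟨c + 1, hc⟩
    show (m + dg6 (code (w k)) c - dg6 (code (w k)) (c + 1)) + w k ⟨c + 1, hc⟩ = _
    rw [e1, e2]
    have := h2 ⟨c + 1, hc⟩
    omega
  rw [← Finset.sum_add_distrib, Finset.sum_congr rfl fun k _ => h1 k, Finset.sum_add_distrib]
  simp

theorem difT_bound {m e : ℕ} (hm : m ≤ 4) (w : Fin (m + 1) → Fin e → ℕ) (hw : ∀ k, ∑ c, w k c = m) (c : ℕ)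
    (hc : c + 1 < e) : (difT m c).b ≤ 31 ∧ (∑ k, (difT m c).q (code (w k))) + (31 - (difT m c).b) < 64 := by
  have h1 := difT_sum (by omega) w hw c hc
  have h2 : ∑ k, w k ⟨c, by omega⟩ ≤ ∑ _k : Fin (m + 1), m := Finset.sum_le_sum fun k _ => le_of_sum (hw k).le _
  have h3 : ∑ _k : Fin (m + 1), m = (m + 1) * m := by simp
  have h4 : (m + 1) * m ≤ 20 := by
    interval_cases m <;> norm_num
  show (m + 1) * m ≤ 31 ∧ (∑ k, (difT m c).q (code (w k))) + (31 - (m + 1) * m) < 64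
  omega

theorem difT_ok {m e : ℕ} (hm : m ≤ 4) (w : Fin (m + 1) → Fin e → ℕ) (hw : ∀ k, ∑ c, w k c = m) (c : ℕ)
    (hc : c + 1 < e) (h : ∑ k, w k ⟨c, by omega⟩ ≤ ∑ k, w k ⟨c + 1, hc⟩) :
    ∑ k, (difT m c).q (code (w k)) ≤ (difT m c).b := by
  have h1 := difT_sum (by omega) w hw c hc
  show _ ≤ (m + 1) * m
  omega

theorem colT_sum {m e : ℕ} (hm : m ≤ 5) (w : Fin (m + 1) → Fin e → ℕ) (hw : ∀ k, ∑ c, w k c = m) (c : ℕ) (hc : c < e) :
    ∑ k, (colT m c).q (code (w k)) = ∑ k, w k ⟨c, hc⟩ := by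
  refine Finset.sum_congr rfl fun k _ => ?_
  have h2 := fun x => le_of_sum (hw k).le x
  exact dg6_code (w k) (fun x => by have := h2 x; omega) ⟨c, hc⟩

theorem tab_of_ftab {m e : ℕ} (f : ℕ → ℕ) (ftab : List (ℕ × ℕ)) (hf : ftab = (PP m e).map fun p => (code p, f (code p)))
    (P : ℕ → Bool) : ((PP m e).filter (fun p => P (code p))).map (fun p => f (code p)) =
      (ftab.filter (fun x => P x.1)).map Prod.snd := by
  rw [hf, List.filter_map, List.map_map]
  rfl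

theorem head_gen {m d : ℕ} (hd : 1 ≤ d) (hm : m ≤ 30) (He Hd : ℕ) (thE thD : List (ℕ × ℕ))
    (prs : List (Fin (d + 1) × Fin d)) (ex : List CT) (ftab : List (ℕ × ℕ))
    (hHe : He = code fun _ : Fin (d + 1) => 32) (hHd : Hd = code fun _ : Fin d => 32)
    (hthE : thE = thc m (d + 1)) (hthD : thD = thc m d)
    (hmc : ∀ p ∈ PP m (d + 1), ∀ zs ∈ prs, mcode zs.1.1 zs.2.1 (code p) = code (mergeV zs.1 zs.2 p))
    (hftab : ftab = (PP m (d + 1)).map fun p => (code p, num (tAll He Hd thE thD prs ex) (K5 d) (code p)))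
    (othL : List ℕ) (lam : Fin (d + 1) → ℕ) (tab : List ℕ) (a0 m0 m1 sh : ℕ) (ms keys : List ℕ) (S0 S1 : ℕ → Bool)
    (h01 : ∀ κ, S0 κ = true → S1 κ = true) (hS1 : ∀ zs ∈ prs, S1 (kd zs) = false)
    (htab : tab = (ftab.filter fun x => anyR (Nat.beq x.1) othL).map Prod.snd)
    (ha0 : a0 = num (tAll He Hd thE thD prs ex) (K5 d) (code lam) + OF (tAll He Hd thE thD prs ex))
    (hm0 : m0 = MS (tAll He Hd thE thD prs ex) S0) (hm1 : m1 = MS (tAll He Hd thE thD prs ex) S1)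
    (hsh : sh = 6 * (tAll He Hd thE thD prs ex).length)
    (hms : ms = (prs.map kd).map fun κ => MS (tAll He Hd thE thD prs ex) (fun x => Nat.beq x κ))
    (hen : enr m0 (leafR m1 sh ms keys) m tab a0 = true)
    (w : Fin (m + 1) → Fin (d + 1) → ℕ) (hw : ∀ k, ∑ c, w k c = m) (hs : SpreadOut (m + 1) w) (hw0 : w 0 = lam)
    (hoth : ∀ k : Fin m, anyR (Nat.beq (code (w k.succ))) othL = true)
    (hwL : (List.ofFn fun k : Fin m => w k.succ).Sublist (PP m (d + 1)))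
    (hexb : ∀ t ∈ ex, t.b ≤ 31 ∧ (∑ k, t.q (code (w k))) + (31 - t.b) < 64)
    (hex1 : ∀ t ∈ ex, S1 t.κ = true → ∑ k, t.q (code (w k)) ≤ t.b) :
    (∃ zs ∈ prs, SpreadOut (m + 1) (fun k => mergeV zs.1 zs.2 (w k))) ∨
      ∑ k, 2 ^ k5 (d + 1 - 1) (code (w k)) ∈ keys := by
  have hsub := sublist_filter_of (fun p => anyR (Nat.beq (code p)) othL) hwL (by
    intro x hx
    rw [List.mem_ofFn] at hx
    obtain ⟨k, rfl⟩ := hx
    exact hoth k)
  rcases head_main (tAll He Hd thE thD prs ex) (K5 d) S0 S1 h01 lam _ tab a0 m0 m1 sh (prs.map kd) ms keys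
    (htab.trans (tab_of_ftab _ _ hftab (fun x => anyR (Nat.beq x) othL)).symm) ha0 hm0 hm1 hsh hms hen w hw0 hsub
    (tAll_bound hm He Hd thE thD hthE hthD prs ex w hexb)
    (tAll_spread hm He Hd hHe thE thD hthE prs ex S1 hS1 w hw hs hex1) with ⟨κ, hκ, h⟩ | h
  · left
    rw [List.mem_map] at hκ
    obtain ⟨zs, hzs, rfl⟩ := hκ
    exact ⟨zs, hzs, tAll_merge hd hm He Hd hHd thE thD hthD prs hmc ex w hw zs hzs h⟩
  · right
    exact h

end Pool.Agent.Helper96.TS
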