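import Pool.Agent.Helper96.TS.Pk

/-!
# The enumeration for one head
-/

set_option autoImplicit false

namespace Pool.Agent.Helper96.TS

theorem head_main {m e : ℕ} (ts : List CT) (K : ℕ → ℕ) (S0 S1 : ℕ → Bool) (h01 : ∀ κ, S0 κ = true → S1 κ = true)
    (lam : Fin e → ℕ) (L : List (Fin e → ℕ)) (tab : List ℕ) (a0 m0 m1 sh : ℕ) (ks ms keys : List ℕ)
    (htab : tab = L.map fun p => num ts K (code p)) (ha0 : a0 = num ts K (code lam) + OF ts) (hm0 : m0 = MS ts S0)
    (hm1 : m1 = MS ts S1) (hsh : sh = 6 * ts.length) (hms : ms = ks.map fun κ => MS ts (fun x => Nat.beq x κ))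
    (hen : enr m0 (leafR m1 sh ms keys) m tab a0 = true)
    (w : Fin (m + 1) → Fin e → ℕ) (hw0 : w 0 = lam) (hwL : (List.ofFn fun k : Fin m => w k.succ).Sublist L)
    (hb : ∀ t ∈ ts, t.b ≤ 31 ∧ (∑ k, t.q (code (w k))) + (31 - t.b) < 64)
    (h1 : ∀ t ∈ ts, S1 t.κ = true → ∑ k, t.q (code (w k)) ≤ t.b) :
    (∃ κ ∈ ks, ∀ t ∈ ts, t.κ = κ → ∑ k, t.q (code (w k)) ≤ t.b) ∨ ∑ k, K (code (w k)) ∈ keys := by
  set G : List ℕ := List.ofFn fun k : Fin m => code (w k.succ) with hG
  have hGF : (G.map (num ts K)).Sublist tab := by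
    rw [htab]
    have h2 := hwL.map (fun p => num ts K (code p))
    rw [List.map_ofFn] at h2
    rw [hG, List.map_ofFn]
    exact h2
  have hsum : ∀ f : ℕ → ℕ, ((code lam :: G).map f).sum = ∑ k, f (code (w k)) := by
    intro f
    rw [List.map_cons, List.sum_cons, Fin.sum_univ_succ, hw0, hG, List.map_ofFn, List.sum_ofFn]
    rfl
  have hle : ∀ (f : ℕ → ℕ) (l : ℕ), ((code lam :: G.take l).map f).sum ≤ ∑ k, f (code (w k)) := by
    intro f l
    rw [← hsum]
    apply List.Sublist.sum_le_sum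
    · apply List.Sublist.map
      exact (List.take_sublist l G).cons_cons _
    · intro a _
      exact Nat.zero_le _
  have hbig : ∀ l, ∀ t ∈ ts, t.b ≤ 31 ∧ ((code lam :: G.take l).map t.q).sum + (31 - t.b) < 64 := by
    intro l t ht
    have := hb t ht
    have := hle t.q l
    omega
  have key : ∀ (l : ℕ), a0 + ((G.take l).map (num ts K)).sum = ((code lam :: G.take l).map (num ts K)).sum + OF ts := by
    intro l
    rw [ha0, List.map_cons, List.sum_cons]
    ring
  have hend := enr_sound m0 _ m tab a0 hen (G.map (num ts K)) hGF (by simp [hG]) (by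
    intro F' hF'
    rw [List.prefix_iff_eq_take] at hF'
    rw [hF', ← List.map_take, key, hm0, land_test ts K _ S0 (hbig _)]
    intro t ht hS
    exact (hle t.q _).trans (h1 t ht (h01 _ hS)))
  have hfull : a0 + (G.map (num ts K)).sum = ((code lam :: G).map (num ts K)).sum + OF ts := by
    have := key G.length
    rwa [List.take_length] at this
  have hbig' : ∀ t ∈ ts, t.b ≤ 31 ∧ ((code lam :: G).map t.q).sum + (31 - t.b) < 64 := by
    intro t ht
    rw [hsum]
    exact hb t ht
  rw [hfull] at hend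
  rcases leafR_sound hend (by
    rw [hm1, land_test ts K _ S1 hbig']
    intro t ht hS
    rw [hsum]
    exact h1 t ht hS) with ⟨mm, hmm, h2⟩ | h2
  · left
    rw [hms, List.mem_map] at hmm
    obtain ⟨κ, hκ, rfl⟩ := hmm
    refine ⟨κ, hκ, ?_⟩
    rw [land_test ts K _ _ hbig'] at h2
    intro t ht htk
    have := h2 t ht (by rw [htk]; exact Nat.beq_refl κ)
    rwa [hsum] at this
  · right
    rw [hsh, shift_key ts K _ (fun t ht => (hbig' t ht).2), hsum] at h2
    exact h2

end Pool.Agent.Helper96.TS
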