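import Pool.Agent.Helper96.TS.Head
import Pool.Agent.Helper28.SP.Perm
import Pool.Agent.Helper13.TS.Fold

/-!
# The normal form of a spread-out family, and the meaning of the tests
-/

set_option autoImplicit false

namespace Pool.Agent.Helper96.TS

open Pool.Agent.Helper28.SO (TRealized mergeV)
open Helper13.TS (SpreadOut)

/-! ### spread-out families by counting -/

theorem spread_iff' {n e : ℕ} (w : Fin n → Fin e → ℕ) (hw : ∀ k, ∑ c, w k c = n - 1) :
    SpreadOut n w ↔ ∀ m : Fin e → ℕ, 1 ≤ ∑ x, m x → ∑ x, m x ≤ n - 1 →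
      (Finset.univ.filter (fun k => ∀ x, m x ≤ w k x)).card ≤ n - ∑ x, m x := by
  constructor
  · intro hs m h1 h2
    rcases (Finset.univ.filter (fun k => ∀ x, m x ≤ w k x)).eq_empty_or_nonempty with h | h
    · rw [h]
      simp
    · have h3 := hs _ h m (fun j hj => (Finset.mem_filter.1 hj).2)
      have h4 : (Finset.univ.filter (fun k => ∀ x, m x ≤ w k x)).card ≤ n := by
        refine (Finset.card_le_univ _).trans ?_
        simp
      omega
  · intro h J hJ m hm
    have hJn : J.card ≤ n := by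
      refine (Finset.card_le_univ _).trans ?_
      simp
    rcases Nat.eq_zero_or_pos (∑ x, m x) with h0 | h0
    · rw [h0]
      omega
    · obtain ⟨j, hj⟩ := hJ
      have h2 : ∑ x, m x ≤ n - 1 := by
        rw [← hw j]
        exact Finset.sum_le_sum fun c _ => hm j hj c
      have h3 := h m h0 h2
      have h4 : J.card ≤ (Finset.univ.filter (fun k => ∀ x, m x ≤ w k x)).card := by
        apply Finset.card_le_card
        intro k hk
        exact Finset.mem_filter.2 ⟨Finset.mem_univ _, hm k hk⟩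
      omega

theorem spreadOut_label {n e : ℕ} {v : Fin n → Fin e → ℕ} (hs : SpreadOut n v) (π : Equiv.Perm (Fin n)) :
    SpreadOut n fun k => v (π k) := by
  classical
  intro J hJ m hm
  have h1 := hs (J.image π) (hJ.image _) m (fun j hj c => by
    obtain ⟨i, hi, rfl⟩ := Finset.mem_image.1 hj
    exact hm i hi c)
  rwa [Finset.card_image_of_injective _ π.injective] at h1

theorem spreadOut_colour {n e : ℕ} {v : Fin n → Fin e → ℕ} (hs : SpreadOut n v) (ρ : Equiv.Perm (Fin e)) :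
    SpreadOut n fun k c => v k (ρ c) := by
  intro J hJ m hm
  have h1 := hs J hJ (fun c => m (ρ.symm c)) (fun j hj c => by
    have := hm j hj (ρ.symm c)
    simpa using this)
  rwa [Equiv.sum_comp ρ.symm m] at h1

/-! ### positions -/

/-- all positions with sum `m` -/
def PP (m e : ℕ) : List (Fin e → ℕ) := List.Nat.antidiagonalTuple e m

theorem mem_PP {m e : ℕ} (p : Fin e → ℕ) : p ∈ PP m e ↔ ∑ c, p c = m := List.Nat.mem_antidiagonalTuple

theorem nodup_PP (m e : ℕ) : (PP m e).Nodup := List.Nat.nodup_antidiagonalTuple e m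

/-- the weight used for the choice of the head -/
def phi {e : ℕ} (p : Fin e → ℕ) : ℕ := ∑ c, p c * p c

/-- an injective family is, up to a permutation, a sublist of the list -/
theorem exists_sublist' {α : Type*} [DecidableEq α] {n : ℕ} (L : List α) (hL : L.Nodup) (v : Fin n → α)
    (hv : Function.Injective v) (hvL : ∀ k, v k ∈ L) :
    ∃ (w : Fin n → α) (π : Equiv.Perm (Fin n)), (List.ofFn w).Sublist L ∧ ∀ k, v k = w (π k) := by
  classical
  let P : List α := L.filter fun x => decide (∃ k, v k = x)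
  have hP : ∀ x, x ∈ P ↔ ∃ k, v k = x := by
    intro x
    simp only [P, List.mem_filter, decide_eq_true_eq]
    constructor
    · exact fun h => h.2
    · rintro ⟨k, rfl⟩
      exact ⟨hvL k, k, rfl⟩
  have hPnd : P.Nodup := hL.filter _
  have hlen : P.length = n := by
    rw [← List.toFinset_card_of_nodup hPnd]
    have : P.toFinset = Finset.univ.image v := by
      ext x
      rw [List.mem_toFinset, hP]
      simp
    rw [this, Finset.card_image_of_injective _ hv]
    simp
  let w : Fin n → α := fun k => P.get (k.cast hlen.symm)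
  have hw : List.ofFn w = P := by
    apply List.ext_get
    · simp [hlen]
    · intro i h1 h2
      simp [w]
  have hmem : ∀ k, ∃ j, w j = v k := by
    intro k
    have h1 : v k ∈ List.ofFn w := by
      rw [hw, hP]
      exact ⟨k, rfl⟩
    rw [List.mem_ofFn] at h1
    exact h1
  choose σ hσ using hmem
  have hσi : Function.Injective σ := by
    intro i j hij
    apply hv
    rw [← hσ i, ← hσ j, hij]
  refine ⟨w, Equiv.ofBijective σ ((Finite.injective_iff_bijective).1 hσi), ?_, fun k => (hσ k).symm⟩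
  rw [hw]
  exact List.filter_sublist

theorem sublist_filter_of {α : Type*} (P : α → Bool) {l L : List α} (h : l.Sublist L) (hP : ∀ x ∈ l, P x = true) :
    l.Sublist (L.filter P) := by
  have h1 := h.filter P
  rwa [List.filter_eq_self.2 hP] at h1

/-- the normal form: the first label has maximal weight, its colours are sorted, and the other labels are sorted -/
theorem normal_form {m e : ℕ} (v : Fin (m + 1) → Fin e → ℕ) (hv : ∀ k, ∑ c, v k c = m) (hs : SpreadOut (m + 1) v) :
    ∃ (w : Fin (m + 1) → Fin e → ℕ) (ρ : Equiv.Perm (Fin e)), (∀ k, ∑ c, w k c = m) ∧ SpreadOut (m + 1) w ∧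
      Function.Injective w ∧
      (TRealized (m + 1) e w → TRealized (m + 1) e v) ∧ (∀ c, ∑ k, w k c = ∑ k, v k (ρ c)) ∧ Monotone (w 0) ∧
      (∀ c c', c ≤ c' → w 0 c = w 0 c' → ∑ k, w k c ≤ ∑ k, w k c') ∧ (∀ k, phi (w k) ≤ phi (w 0)) ∧
      (List.ofFn fun k : Fin m => w k.succ).Sublist (PP m e) := by
  classical
  obtain ⟨k0, -, hk0⟩ := Finset.univ.exists_max_image (fun k => phi (v k)) ⟨0, Finset.mem_univ _⟩
  let u : Fin (m + 1) → Fin e → ℕ := fun k => v (Equiv.swap 0 k0 k)
  have hu0 : u 0 = v k0 := by simp [u]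
  let s : Fin e → ℕ := fun c => ∑ k, v k c
  let B : ℕ := (m + 1) * m + 1
  have hs64 : ∀ c, s c < B := by
    intro c
    have h2 : ∑ k, v k c ≤ ∑ _k : Fin (m + 1), m := by
      apply Finset.sum_le_sum
      intro k _
      rw [← hv k]
      exact Finset.single_le_sum (f := fun c => v k c) (fun _ _ => Nat.zero_le _) (Finset.mem_univ c)
    have h3 : ∑ _k : Fin (m + 1), m = (m + 1) * m := by simp
    show ∑ k, v k c < (m + 1) * m + 1
    omega
  let ρ : Equiv.Perm (Fin e) := Tuple.sort fun c => u 0 c * B + s c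
  have hρ : Monotone ((fun c => u 0 c * B + s c) ∘ ρ) := Tuple.monotone_sort _
  let u1 : Fin (m + 1) → Fin e → ℕ := fun k c => u k (ρ c)
  have hu1 : ∀ k, ∑ c, u1 k c = m := fun k => (Equiv.sum_comp ρ (u k)).trans (hv _)
  have hsu1 : SpreadOut (m + 1) u1 := spreadOut_colour (spreadOut_label hs (Equiv.swap 0 k0)) ρ
  have hphi : ∀ k, phi (u1 k) = phi (v (Equiv.swap 0 k0 k)) := fun k =>
    Equiv.sum_comp ρ fun c => v (Equiv.swap 0 k0 k) c * v (Equiv.swap 0 k0 k) c
  have hinj : Function.Injective u1 := hsu1.injective (fun k => by rw [hu1]; rfl)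
  obtain ⟨w', π, hw', hvw⟩ := exists_sublist' (PP m e) (nodup_PP m e) (fun k : Fin m => u1 k.succ)
    (fun i j hij => Fin.succ_injective _ (hinj hij)) (fun k => (mem_PP _).2 (hu1 _))
  let w : Fin (m + 1) → Fin e → ℕ := Fin.cons (u1 0) w'
  let π' : Equiv.Perm (Fin (m + 1)) := Equiv.Perm.decomposeFin.symm (0, π)
  have hπ : ∀ k, u1 k = w (π' k) := by
    intro k
    refine Fin.cases ?_ (fun i => ?_) k
    · simp [π', w]
    · simp [π', w, hvw]
  have hwu : ∀ k, w k = u1 (π'.symm k) := by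
    intro k
    rw [hπ, Equiv.apply_symm_apply]
  have hw0 : w 0 = u1 0 := rfl
  have hsum : ∀ c, ∑ k, w k c = ∑ k, v k (ρ c) := by
    intro c
    have h1 : ∀ k, w k c = u1 (π'.symm k) c := fun k => by rw [hwu]
    simp only [h1]
    rw [Equiv.sum_comp π'.symm (fun k => u1 k c)]
    exact Equiv.sum_comp (Equiv.swap 0 k0) fun k => v k (ρ c)
  refine ⟨w, ρ, ?_, ?_, ?_, ?_, hsum, ?_, ?_, ?_, hw'⟩
  · intro k
    rw [hwu]
    exact hu1 _
  · have h1 := spreadOut_label hsu1 π'.symm
    have h2 : (fun k => u1 (π'.symm k)) = w := by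
      funext k
      rw [hwu]
    rwa [h2] at h1
  · intro i j hij
    rw [hwu, hwu] at hij
    exact π'.symm.injective (hinj hij)
  · intro h
    have h1 := h.perm_label π'
    have h2 : (fun k => w (π' k)) = u1 := by
      funext k
      rw [hπ]
    rw [h2] at h1
    have h3 := h1.perm_colour ρ.symm
    have h4 : (fun k c => u1 k (ρ.symm c)) = u := by
      funext k c
      simp [u1]
    rw [h4] at h3
    have h5 := h3.perm_label (Equiv.swap 0 k0)
    have h6 : (fun k => u (Equiv.swap 0 k0 k)) = v := by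
      funext k
      simp [u]
    rwa [h6] at h5
  · intro c c' hcc
    have h1 := hρ hcc
    simp only [Function.comp_apply] at h1
    rw [hw0]
    show u 0 (ρ c) ≤ u 0 (ρ c')
    by_contra hn
    push Not at hn
    have h2 : (u 0 (ρ c') + 1) * B ≤ u 0 (ρ c) * B := Nat.mul_le_mul_right _ hn
    have h3 := hs64 (ρ c')
    rw [add_mul, one_mul] at h2
    omega
  · intro c c' hcc heq
    rw [hsum, hsum]
    have h1 := hρ hcc
    simp only [Function.comp_apply] at h1
    rw [hw0] at heq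
    have h2 : u 0 (ρ c) = u 0 (ρ c') := heq
    rw [h2] at h1
    exact Nat.le_of_add_le_add_left h1
  · intro k
    rw [hwu, hw0, hphi, hphi]
    have h1 := hk0 (Equiv.swap 0 k0 (π'.symm k)) (Finset.mem_univ _)
    simpa using h1

/-! ### the tests -/

/-- thresholds -/
def thr (m e : ℕ) : List (Fin e → ℕ) := (List.range m).flatMap fun s => List.Nat.antidiagonalTuple e (s + 1)

theorem mem_thr {m e : ℕ} (p : Fin e → ℕ) : p ∈ thr m e ↔ 1 ≤ ∑ x, p x ∧ ∑ x, p x ≤ m := by
  unfold thr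
  rw [List.mem_flatMap]
  constructor
  · rintro ⟨s, hs, h⟩
    rw [List.Nat.mem_antidiagonalTuple] at h
    rw [List.mem_range] at hs
    omega
  · rintro ⟨h1, h2⟩
    refine ⟨∑ x, p x - 1, List.mem_range.2 (by omega), ?_⟩
    rw [List.Nat.mem_antidiagonalTuple]
    omega

/-- thresholds as codes -/
def thc (m e : ℕ) : List (ℕ × ℕ) := (thr m e).map fun q => (code q, m + 1 - ∑ x, q x)

/-- merging of codes -/
def mcode (z s x : ℕ) : ℕ := Nat.add (Nat.add (Nat.mod x (64 ^ z)) (Nat.mul (64 ^ z) (Nat.div x (64 ^ (z + 1)))))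
  (Nat.mul (Nat.mod (Nat.div x (64 ^ z)) 64) (64 ^ s))

/-- the kind of a merging -/
def kd {d : ℕ} (zs : Fin (d + 1) × Fin d) : ℕ := 2 + (zs.1.1 * 16 + zs.2.1)

/-- the tests of the thresholds -/
def tId (He : ℕ) (thE : List (ℕ × ℕ)) : List CT := thE.map fun M => ⟨geq He M.1, M.2, 0⟩

/-- the tests of the thresholds after the merging -/
def tMg (Hd : ℕ) (thD : List (ℕ × ℕ)) (zs : ℕ × ℕ) (κ : ℕ) : List CT :=
  thD.map fun M => ⟨fun x => geq Hd M.1 (mcode zs.1 zs.2 x), M.2, κ⟩

/-- all tests -/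
def tAll {d : ℕ} (He Hd : ℕ) (thE thD : List (ℕ × ℕ)) (prs : List (Fin (d + 1) × Fin d)) (ex : List CT) : List CT :=
  tId He thE ++ (prs.flatMap fun zs => tMg Hd thD (zs.1.1, zs.2.1) (kd zs)) ++ ex

theorem geq_le (H M x : ℕ) : geq H M x ≤ 1 := by
  have h1 : Nat.land (Nat.sub (Nat.add x H) M) H ≤ H := Nat.and_le_right
  show Nat.land (Nat.sub (Nat.add x H) M) H / H ≤ 1
  rcases Nat.eq_zero_or_pos H with h | h
  · rw [h]
    simp
  · rw [← Nat.div_self h]
    exact Nat.div_le_div_right h1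

theorem le_of_sum {m e : ℕ} {p : Fin e → ℕ} (h : ∑ c, p c ≤ m) (c : Fin e) : p c ≤ m :=
  (Finset.single_le_sum (f := p) (fun _ _ => Nat.zero_le _) (Finset.mem_univ c)).trans h

variable {m d : ℕ}

theorem tAll_bound (hm : m ≤ 30) (He Hd : ℕ) (thE thD : List (ℕ × ℕ)) (hthE : thE = thc m (d + 1))
    (hthD : thD = thc m d) (prs : List (Fin (d + 1) × Fin d)) (ex : List CT) (w : Fin (m + 1) → Fin (d + 1) → ℕ)
    (hex : ∀ t ∈ ex, t.b ≤ 31 ∧ (∑ k, t.q (code (w k))) + (31 - t.b) < 64) :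
    ∀ t ∈ tAll He Hd thE thD prs ex, t.b ≤ 31 ∧ (∑ k, t.q (code (w k))) + (31 - t.b) < 64 := by
  have h2 : ∀ q : ℕ → ℕ, (∀ x, q x ≤ 1) → ∑ k, q (code (w k)) ≤ m + 1 := by
    intro q hq
    calc ∑ k, q (code (w k)) ≤ ∑ _k : Fin (m + 1), 1 := Finset.sum_le_sum fun k _ => hq _
      _ = m + 1 := by simp
  intro t ht
  unfold tAll at ht
  rw [List.mem_append, List.mem_append] at ht
  rcases ht with (ht | ht) | ht
  · unfold tId at ht
    rw [List.mem_map] at ht
    obtain ⟨M, hM, rfl⟩ := ht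
    rw [hthE, thc, List.mem_map] at hM
    obtain ⟨q, -, rfl⟩ := hM
    have := h2 (geq He (code q)) (fun x => geq_le _ _ _)
    constructor
    · show m + 1 - ∑ x, q x ≤ 31
      omega
    · show (∑ k, geq He (code q) (code (w k))) + (31 - (m + 1 - ∑ x, q x)) < 64
      omega
  · rw [List.mem_flatMap] at ht
    obtain ⟨zs, -, ht⟩ := ht
    unfold tMg at ht
    rw [List.mem_map] at ht
    obtain ⟨M, hM, rfl⟩ := ht
    rw [hthD, thc, List.mem_map] at hM
    obtain ⟨q, -, rfl⟩ := hM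
    have := h2 (fun x => geq Hd (code q) (mcode zs.1.1 zs.2.1 x)) (fun x => geq_le _ _ _)
    constructor
    · show m + 1 - ∑ x, q x ≤ 31
      omega
    · show (∑ k, geq Hd (code q) (mcode zs.1.1 zs.2.1 (code (w k)))) + (31 - (m + 1 - ∑ x, q x)) < 64
      omega
  · exact hex t ht

theorem sum_geq {e : ℕ} (he : 1 ≤ e) (hm : m ≤ 30) (w : Fin (m + 1) → Fin e → ℕ) (hw : ∀ k, ∑ c, w k c = m)
    (q : Fin e → ℕ) (hq : ∑ c, q c ≤ m) :
    ∑ k, geq (code fun _ : Fin e => 32) (code q) (code (w k)) =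
      (Finset.univ.filter (fun k => ∀ x, q x ≤ w k x)).card := by
  rw [Finset.card_filter]
  refine Finset.sum_congr rfl fun k _ => ?_
  apply geq_code he
  · intro c
    have := le_of_sum hq c
    omega
  · intro c
    have := le_of_sum (hw k).le c
    omega

theorem tAll_spread (hm : m ≤ 30) (He Hd : ℕ) (hHe : He = code fun _ : Fin (d + 1) => 32) (thE thD : List (ℕ × ℕ))
    (hthE : thE = thc m (d + 1)) (prs : List (Fin (d + 1) × Fin d)) (ex : List CT) (S : ℕ → Bool)
    (hS : ∀ zs ∈ prs, S (kd zs) = false)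
    (w : Fin (m + 1) → Fin (d + 1) → ℕ) (hw : ∀ k, ∑ c, w k c = m) (hs : SpreadOut (m + 1) w)
    (hex : ∀ t ∈ ex, S t.κ = true → ∑ k, t.q (code (w k)) ≤ t.b) :
    ∀ t ∈ tAll He Hd thE thD prs ex, S t.κ = true → ∑ k, t.q (code (w k)) ≤ t.b := by
  intro t ht hSt
  unfold tAll at ht
  rw [List.mem_append, List.mem_append] at ht
  rcases ht with (ht | ht) | ht
  · unfold tId at ht
    rw [List.mem_map] at ht
    obtain ⟨M, hM, rfl⟩ := ht
    rw [hthE, thc, List.mem_map] at hM
    obtain ⟨q, hq, rfl⟩ := hM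
    rw [mem_thr] at hq
    show ∑ k, geq He (code q) (code (w k)) ≤ m + 1 - ∑ x, q x
    rw [hHe, sum_geq (by omega) hm w hw q hq.2]
    exact (spread_iff' w hw).1 hs q hq.1 hq.2
  · exfalso
    rw [List.mem_flatMap] at ht
    obtain ⟨zs, hzs, ht⟩ := ht
    unfold tMg at ht
    rw [List.mem_map] at ht
    obtain ⟨M, hM, rfl⟩ := ht
    have := hS zs hzs
    simp only at hSt
    rw [this] at hSt
    simp at hSt
  · exact hex t ht hSt

theorem sum_mergeV' (z : Fin (d + 1)) (s : Fin d) (w : Fin (d + 1) → ℕ) : ∑ c, mergeV z s w c = ∑ c, w c := by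
  rw [Fin.sum_univ_succAbove w z]
  simp only [mergeV, Finset.sum_add_distrib, Finset.sum_ite_eq', Finset.mem_univ, if_true]
  ring

theorem tAll_merge (hd : 1 ≤ d) (hm : m ≤ 30) (He Hd : ℕ) (hHd : Hd = code fun _ : Fin d => 32) (thE thD : List (ℕ × ℕ))
    (hthD : thD = thc m d) (prs : List (Fin (d + 1) × Fin d))
    (hmc : ∀ p ∈ PP m (d + 1), ∀ zs ∈ prs, mcode zs.1.1 zs.2.1 (code p) = code (mergeV zs.1 zs.2 p))
    (ex : List CT) (w : Fin (m + 1) → Fin (d + 1) → ℕ) (hw : ∀ k, ∑ c, w k c = m) (zs : Fin (d + 1) × Fin d)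
    (hzs : zs ∈ prs)
    (h : ∀ t ∈ tAll He Hd thE thD prs ex, t.κ = kd zs → ∑ k, t.q (code (w k)) ≤ t.b) :
    SpreadOut (m + 1) (fun k => mergeV zs.1 zs.2 (w k)) := by
  have hw' : ∀ k, ∑ c, mergeV zs.1 zs.2 (w k) c = m := fun k => by rw [sum_mergeV', hw]
  rw [spread_iff' _ (fun k => by rw [hw']; rfl)]
  intro q h1 h2
  have h2' : ∑ x, q x ≤ m := h2
  have h3 := h ⟨fun x => geq Hd (code q) (mcode zs.1.1 zs.2.1 x), m + 1 - ∑ x, q x, kd zs⟩ (by
    unfold tAll
    rw [List.mem_append, List.mem_append]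
    left
    right
    rw [List.mem_flatMap]
    refine ⟨zs, hzs, ?_⟩
    unfold tMg
    rw [List.mem_map]
    refine ⟨(code q, m + 1 - ∑ x, q x), ?_, rfl⟩
    rw [hthD, thc]
    exact List.mem_map_of_mem (f := fun q => (code q, m + 1 - ∑ x, q x)) ((mem_thr q).2 ⟨h1, h2'⟩)) rfl
  have h4 : ∑ k, geq Hd (code q) (mcode zs.1.1 zs.2.1 (code (w k))) =
      (Finset.univ.filter (fun k => ∀ x, q x ≤ mergeV zs.1 zs.2 (w k) x)).card := by
    rw [← sum_geq hd hm (fun k => mergeV zs.1 zs.2 (w k)) hw' q h2', hHd]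
    refine Finset.sum_congr rfl fun k _ => ?_
    rw [hmc (w k) ((mem_PP _).2 (hw k)) zs hzs]
  simp only at h3
  rw [h4] at h3
  exact h3

end Pool.Agent.Helper96.TS
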