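import Mathlib

/-!
# Packed linear tests and an enumeration with pruning

The values of all tests are packed in one number (six bits for each test).
-/

set_option autoImplicit false

namespace Pool.Agent.Helper96.TS

/-- digits in base `64`, with a tail -/
def pk (K : ℕ) : List ℕ → ℕ
  | [] => K
  | a :: l => a + 64 * pk K l

theorem pk_add {α : Type*} (l : List α) (f g : α → ℕ) (K K' : ℕ) :
    pk (K + K') (l.map fun t => f t + g t) = pk K (l.map f) + pk K' (l.map g) := by
  induction l with
  | nil => simp [pk]
  | cons t l ih =>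
    simp only [List.map_cons, pk, ih]
    ring

theorem land64 (a b x y : ℕ) (ha : a < 64) (hb : b < 64) :
    (a + 64 * x) &&& (b + 64 * y) = (a &&& b) + 64 * (x &&& y) := by
  have h1 := Nat.and_mod_two_pow (a := a + 64 * x) (b := b + 64 * y) (n := 6)
  have h2 := Nat.and_div_two_pow (a := a + 64 * x) (b := b + 64 * y) (n := 6)
  have e1 : (a + 64 * x) % 2 ^ 6 = a := by omega
  have e2 : (b + 64 * y) % 2 ^ 6 = b := by omega
  have e3 : (a + 64 * x) / 2 ^ 6 = x := by omega
  have e4 : (b + 64 * y) / 2 ^ 6 = y := by omega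
  rw [e1, e2] at h1
  rw [e3, e4] at h2
  omega

theorem and32 : ∀ a < 64, (a &&& 32 = 0 ↔ a < 32) := by
  decide

theorem and32' : ∀ a < 64, a &&& 32 = if 32 ≤ a then 32 else 0 := by
  decide

theorem pk_land {α : Type*} (l : List α) (f msk : α → ℕ) (K : ℕ) (hf : ∀ t ∈ l, f t < 64)
    (hm : ∀ t ∈ l, msk t = 0 ∨ msk t = 32) :
    pk K (l.map f) &&& pk 0 (l.map msk) = 0 ↔ ∀ t ∈ l, msk t = 32 → f t < 32 := by
  induction l with
  | nil => simp [pk]
  | cons t l ih =>
    have h1 := hf t List.mem_cons_self
    have h2 := hm t List.mem_cons_self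
    have ih' := ih (fun t ht => hf t (List.mem_cons_of_mem _ ht)) (fun t ht => hm t (List.mem_cons_of_mem _ ht))
    simp only [List.map_cons, pk]
    rw [land64 _ _ _ _ h1 (by rcases h2 with h | h <;> omega)]
    have h3 : (f t &&& msk t = 0) ↔ (msk t = 32 → f t < 32) := by
      rcases h2 with h | h
      · rw [h]
        simp
      · rw [h, and32 _ h1]
        simp
    have h4 : ((f t &&& msk t) + 64 * (pk K (l.map f) &&& pk 0 (l.map msk)) = 0) ↔
        ((f t &&& msk t) = 0 ∧ (pk K (l.map f) &&& pk 0 (l.map msk)) = 0) := by omega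
    rw [h4, h3, ih']
    simp

theorem pk_land_eq {α : Type*} (l : List α) (f : α → ℕ) (hf : ∀ t ∈ l, f t < 64) :
    pk 0 (l.map f) &&& pk 0 (l.map fun _ => 32) = pk 0 (l.map fun t => if 32 ≤ f t then 32 else 0) := by
  induction l with
  | nil => simp [pk]
  | cons t l ih =>
    have h1 := hf t List.mem_cons_self
    have ih' := ih (fun t ht => hf t (List.mem_cons_of_mem _ ht))
    simp only [List.map_cons, pk]
    rw [land64 _ _ _ _ h1 (by norm_num), ih', and32' _ h1]

theorem pk_shift {α : Type*} (l : List α) (f : α → ℕ) (K : ℕ) (hf : ∀ t ∈ l, f t < 64) :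
    pk K (l.map f) >>> (6 * l.length) = K := by
  induction l with
  | nil => simp [pk]
  | cons t l ih =>
    have h1 := hf t List.mem_cons_self
    have ih' := ih (fun t ht => hf t (List.mem_cons_of_mem _ ht))
    rw [Nat.shiftRight_eq_div_pow] at ih' ⊢
    rw [List.length_cons, show 6 * (l.length + 1) = 6 + 6 * l.length by ring, pow_add, ← Nat.div_div_eq_div_mul,
      List.map_cons, pk]
    have e3 : (f t + 64 * pk K (l.map f)) / 2 ^ 6 = pk K (l.map f) := by omega
    rw [e3, ih']

theorem pk_mono {α : Type*} (l : List α) (f g : α → ℕ) (h : ∀ t ∈ l, f t ≤ g t) : pk 0 (l.map f) ≤ pk 0 (l.map g) := by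
  induction l with
  | nil => simp [pk]
  | cons t l ih =>
    have h1 := h t List.mem_cons_self
    have ih' := ih (fun t ht => h t (List.mem_cons_of_mem _ ht))
    simp only [List.map_cons, pk]
    omega

theorem pk_lt {α : Type*} (l : List α) (f g : α → ℕ) (h : ∀ t ∈ l, f t ≤ g t) (s : α) (hs : s ∈ l) (hlt : f s < g s) :
    pk 0 (l.map f) < pk 0 (l.map g) := by
  induction l with
  | nil => simp at hs
  | cons t l ih =>
    have h1 := h t List.mem_cons_self
    have h2 := pk_mono l f g (fun t ht => h t (List.mem_cons_of_mem _ ht))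
    simp only [List.map_cons, pk]
    rcases List.mem_cons.1 hs with rfl | hs
    · omega
    · have := ih (fun t ht => h t (List.mem_cons_of_mem _ ht)) hs
      omega

/-! ### codes of positions -/

/-- the code of a position -/
def code {e : ℕ} (p : Fin e → ℕ) : ℕ := pk 0 (List.ofFn p)

theorem code_eq {e : ℕ} (p : Fin e → ℕ) : code p = pk 0 ((List.finRange e).map p) := by
  rw [code, List.ofFn_eq_map]

theorem code_inj {e : ℕ} (p q : Fin e → ℕ) (hp : ∀ c, p c < 64) (hq : ∀ c, q c < 64) (h : code p = code q) : p = q := by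
  rw [code_eq, code_eq] at h
  have key : ∀ l : List (Fin e), pk 0 (l.map p) = pk 0 (l.map q) → ∀ c ∈ l, p c = q c := by
    intro l
    induction l with
    | nil => simp
    | cons t l ih =>
      intro h c hc
      simp only [List.map_cons, pk] at h
      have h1 := hp t
      have h2 := hq t
      rcases List.mem_cons.1 hc with rfl | hc
      · omega
      · exact ih (by omega) c hc
  funext c
  exact key _ h c (List.mem_finRange c)

/-- `1` if all the digits of `x` are at least those of `M` -/
def geq (H M x : ℕ) : ℕ := Nat.div (Nat.land (Nat.sub (Nat.add x H) M) H) H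

theorem geq_code {e : ℕ} (he : 1 ≤ e) (m p : Fin e → ℕ) (hm : ∀ c, m c < 32) (hp : ∀ c, p c < 32) :
    geq (code fun _ : Fin e => 32) (code m) (code p) = if ∀ c, m c ≤ p c then 1 else 0 := by
  have hdef : geq (code fun _ : Fin e => 32) (code m) (code p) =
      ((code p + (code fun _ : Fin e => 32) - code m) &&& (code fun _ : Fin e => 32)) / (code fun _ : Fin e => 32) := rfl
  rw [hdef]
  simp only [code_eq]
  set l := List.finRange e with hl
  have e1 : pk 0 (l.map p) + pk 0 (l.map fun _ => 32) = pk 0 (l.map fun c => p c + 32) := by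
    rw [← pk_add]
  have e2 : pk 0 (l.map fun c => p c + 32) = pk 0 (l.map fun c => p c + 32 - m c) + pk 0 (l.map m) := by
    rw [← pk_add]
    congr 1
    apply List.map_congr_left
    intro c _
    have := hm c
    omega
  rw [e1, e2, Nat.add_sub_cancel, pk_land_eq l (fun c => p c + 32 - m c) (fun c _ => by
    have := hp c
    omega)]
  have e3 : (l.map fun t => if 32 ≤ p t + 32 - m t then 32 else 0) = l.map fun t => if m t ≤ p t then 32 else 0 := by
    apply List.map_congr_left
    intro c _
    have := hm c
    by_cases h : m c ≤ p c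
    · rw [if_pos h, if_pos (by omega)]
    · rw [if_neg h, if_neg (by omega)]
  rw [e3]
  by_cases h : ∀ c, m c ≤ p c
  · rw [if_pos h]
    have e4 : (l.map fun t => if m t ≤ p t then 32 else 0) = l.map fun _ => 32 := by
      apply List.map_congr_left
      intro c _
      rw [if_pos (h c)]
    rw [e4]
    apply Nat.div_self
    have h1 := pk_lt l (fun _ => 0) (fun _ => 32) (fun _ _ => by norm_num) ⟨0, by omega⟩ (List.mem_finRange _)
      (by norm_num)
    omega
  · rw [if_neg h]
    push Not at h
    obtain ⟨c, hc⟩ := h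
    apply Nat.div_eq_of_lt
    refine pk_lt l _ _ (fun t _ => ?_) c (List.mem_finRange c) ?_
    · split_ifs <;> norm_num
    · rw [if_neg (by omega)]
      norm_num

/-! ### tests -/

/-- a test: the sum of `q` over the family is at most `b`; `κ` is the kind of the test -/
structure CT where
  q : ℕ → ℕ
  b : ℕ
  κ : ℕ

/-- all the values of the tests -/
def num (ts : List CT) (K : ℕ → ℕ) (x : ℕ) : ℕ := pk (K x) (ts.map fun t => t.q x)

/-- the offsets -/
def OF (ts : List CT) : ℕ := pk 0 (ts.map fun t => 31 - t.b)

/-- the mask of the tests of some kinds -/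
def MS (ts : List CT) (S : ℕ → Bool) : ℕ := pk 0 (ts.map fun t => cond (S t.κ) 32 0)

theorem sum_num (ts : List CT) (K : ℕ → ℕ) (F : List ℕ) :
    (F.map (num ts K)).sum = pk (F.map K).sum (ts.map fun t => (F.map t.q).sum) := by
  induction F with
  | nil =>
    simp only [List.map_nil, List.sum_nil]
    induction ts with
    | nil => simp [pk]
    | cons t ts ih => simp only [List.map_cons, pk, ← ih, mul_zero, add_zero]
  | cons p F ih =>
    rw [List.map_cons, List.sum_cons, ih, num, ← pk_add]
    simp only [List.map_cons, List.sum_cons]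

theorem land_test (ts : List CT) (K : ℕ → ℕ) (F : List ℕ) (S : ℕ → Bool)
    (hb : ∀ t ∈ ts, t.b ≤ 31 ∧ (F.map t.q).sum + (31 - t.b) < 64) :
    ((F.map (num ts K)).sum + OF ts) &&& MS ts S = 0 ↔ ∀ t ∈ ts, S t.κ = true → (F.map t.q).sum ≤ t.b := by
  rw [sum_num, OF, ← pk_add, MS, pk_land]
  · constructor
    · intro h t ht hk
      have := h t ht (by rw [hk, cond_true])
      have := (hb t ht).1
      omega
    · intro h t ht hk
      have hk' : S t.κ = true := by
        by_contra hne
        rw [Bool.not_eq_true] at hne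
        rw [hne, cond_false] at hk
        omega
      have := h t ht hk'
      have := (hb t ht).1
      omega
  · intro t ht
    exact (hb t ht).2
  · intro t _
    cases S t.κ with
    | true => exact Or.inr rfl
    | false => exact Or.inl rfl

theorem shift_key (ts : List CT) (K : ℕ → ℕ) (F : List ℕ) (hb : ∀ t ∈ ts, (F.map t.q).sum + (31 - t.b) < 64) :
    ((F.map (num ts K)).sum + OF ts) >>> (6 * ts.length) = (F.map K).sum := by
  rw [sum_num, OF, ← pk_add, add_zero, pk_shift _ _ _ hb]

/-! ### the enumeration -/

/-- a fast version of `List.any` -/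
def anyR (p : ℕ → Bool) (l : List ℕ) : Bool :=
  List.rec (motive := fun _ => Bool) false (fun x _ ih => Bool.rec (motive := fun _ => Bool) ih true (p x)) l

theorem anyR_sound (p : ℕ → Bool) (l : List ℕ) (h : anyR p l = true) : ∃ x ∈ l, p x = true := by
  induction l with
  | nil => simp [anyR] at h
  | cons x l ih =>
    cases hx : p x with
    | true => exact ⟨x, List.mem_cons_self, hx⟩
    | false =>
      have h' : anyR p l = true := by
        have h2 : anyR p (x :: l) = Bool.rec (motive := fun _ => Bool) (anyR p l) true (p x) := rfl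
        rw [h2, hx] at h
        exact h
      obtain ⟨y, hy, hy2⟩ := ih h'
      exact ⟨y, List.mem_cons_of_mem _ hy, hy2⟩

/-- all sublists with `r` elements, with pruning -/
def enr (m0 : ℕ) (leaf : ℕ → Bool) (r : ℕ) : List ℕ → ℕ → Bool :=
  Nat.rec (motive := fun _ => List ℕ → ℕ → Bool) (fun _ a => leaf a)
    (fun _ ih l a => List.rec (motive := fun _ => Bool) true
      (fun x l' t => Bool.rec (motive := fun _ => Bool) false t
        (Bool.rec (motive := fun _ => Bool) true (ih l' (Nat.add a x)) (Nat.beq (Nat.land (Nat.add a x) m0) 0))) l) r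

theorem enr_zero (m0 : ℕ) (leaf : ℕ → Bool) (l : List ℕ) (a : ℕ) : enr m0 leaf 0 l a = leaf a := rfl

theorem enr_nil (m0 : ℕ) (leaf : ℕ → Bool) (r a : ℕ) : enr m0 leaf (r + 1) [] a = true := rfl

theorem enr_cons (m0 : ℕ) (leaf : ℕ → Bool) (r : ℕ) (x : ℕ) (l : List ℕ) (a : ℕ) :
    enr m0 leaf (r + 1) (x :: l) a = Bool.rec (motive := fun _ => Bool) false (enr m0 leaf (r + 1) l a)
      (Bool.rec (motive := fun _ => Bool) true (enr m0 leaf r l (a + x)) (Nat.beq ((a + x) &&& m0) 0)) := rfl

theorem enr_sound (m0 : ℕ) (leaf : ℕ → Bool) (r : ℕ) : ∀ (l : List ℕ) (a : ℕ), enr m0 leaf r l a = true →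
    ∀ F : List ℕ, F.Sublist l → F.length = r → (∀ F' : List ℕ, F' <+: F → (a + F'.sum) &&& m0 = 0) →
      leaf (a + F.sum) = true := by
  induction r with
  | zero =>
    intro l a h F hF hr _
    have h0 : F = [] := List.length_eq_zero_iff.1 hr
    subst h0
    simpa [enr_zero] using h
  | succ r ihr =>
    intro l
    induction l with
    | nil =>
      intro a _ F hF hr
      have h0 : F = [] := List.sublist_nil.1 hF
      subst h0
      simp at hr
    | cons x l ih =>
      intro a h F hF hr hp
      rw [enr_cons] at h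
      cases h1 : Bool.rec (motive := fun _ => Bool) true (enr m0 leaf r l (a + x)) (Nat.beq ((a + x) &&& m0) 0) with
      | false =>
        rw [h1] at h
        simp at h
      | true =>
        rw [h1] at h
        cases hF with
        | cons _ hF' => exact ih a h F hF' hr hp
        | cons_cons _ hF' =>
          rename_i F'
          have hr' : F'.length = r := by simpa using hr
          have h2 : (a + x) &&& m0 = 0 := by
            have := hp [x] (by simp)
            simpa using this
          have h3 : Nat.beq ((a + x) &&& m0) 0 = true := by rw [h2]; rfl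
          rw [h3] at h1
          have h4 := ihr l (a + x) h1 F' hF' hr' (by
            intro G hG
            have := hp (x :: G) (by simpa using hG)
            rw [List.sum_cons, ← add_assoc] at this
            exact this)
          rw [List.sum_cons, ← add_assoc]
          exact h4

/-- the test at a leaf -/
def leafR (m1 sh : ℕ) (ms keys : List ℕ) (a : ℕ) : Bool :=
  Bool.rec (motive := fun _ => Bool) true
    (Bool.rec (motive := fun _ => Bool) (anyR (Nat.beq (Nat.shiftRight a sh)) keys) true
      (anyR (fun m => Nat.beq (Nat.land a m) 0) ms)) (Nat.beq (Nat.land a m1) 0)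

theorem leafR_sound {m1 sh : ℕ} {ms keys : List ℕ} {a : ℕ} (h : leafR m1 sh ms keys a = true) (h1 : a &&& m1 = 0) :
    (∃ m ∈ ms, a &&& m = 0) ∨ a >>> sh ∈ keys := by
  have e1 : Nat.beq (Nat.land a m1) 0 = true := by
    have : Nat.land a m1 = 0 := h1
    rw [this]
    rfl
  unfold leafR at h
  rw [e1] at h
  cases h2 : anyR (fun m => Nat.beq (Nat.land a m) 0) ms with
  | true =>
    obtain ⟨m, hm, hm2⟩ := anyR_sound _ _ h2
    exact Or.inl ⟨m, hm, Nat.eq_of_beq_eq_true hm2⟩
  | false =>
    rw [h2] at h
    obtain ⟨k, hk, hk2⟩ := anyR_sound _ _ h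
    right
    have := Nat.eq_of_beq_eq_true hk2
    rw [← this] at hk
    exact hk

end Pool.Agent.Helper96.TS
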