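import Pool.Agent.Helper96.TS.Cert2

/-!
# Certificates by tables of trees
-/

set_option autoImplicit false

namespace Pool.Agent.Helper96.TS

open Pool.Agent.Helper28.SO

/-- a family of trees given by a table -/
def famE (n d : ℕ) (L : List (Fin d → ℕ)) (E : ℕ → ℕ → Bool) (v : Fin d → ℕ) (i : Fin n) : Finset (Fin d) :=
  Finset.univ.filter fun c => E (i.1 * d + c.1) (L.idxOf v) = true

theorem treeFam_of_hit {n d : ℕ} (L : List (Fin d → ℕ)) (hL : ∀ v : Fin d → ℕ, ∑ c, v c = n - 1 → v ∈ L)
    (E : ℕ → ℕ → Bool) (hit : List ℕ → Bool)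
    (hh : ∀ (e : List ℕ) (j : ℕ), j < L.length → (∀ b ∈ e, E b j = true) → hit e = true)
    (G : List (List (List ℕ))) (hG : ∀ e ∈ groupsOf n d, e ∈ G)
    (hone : ∀ g ∈ G, ∀ e ∈ g, ∀ e' ∈ g, hit e = true → hit e' = true → e = e')
    (hdeg : ∀ v ∈ L, ∀ c, (Finset.univ.filter (fun i => c ∈ famE n d L E v i)).card = v c + 1) :
    TreeFam n d (famE n d L E) := by
  classical
  refine treeFam_of_match _ (fun v hv c => hdeg v (hL v hv) c) ?_
  intro v w hv hw S f g hf hg hinj himg
  have hv' := hL v hv
  have hw' := hL w hw
  -- functions on the natural numbers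
  let l : List ℕ := (List.range n).filter fun i => decide (∃ k ∈ S, k.1 = i)
  have hl : ∀ i, i ∈ l ↔ ∃ k ∈ S, k.1 = i := by
    intro i
    simp only [l, List.mem_filter, List.mem_range, decide_eq_true_eq]
    constructor
    · exact fun h => h.2
    · rintro ⟨k, hk, rfl⟩
      exact ⟨k.2, k, hk, rfl⟩
  have hnd : l.Nodup := List.Nodup.filter _ List.nodup_range
  let nf : (Fin n → Fin d) → ℕ → ℕ := fun f i => if h : i < n then (f ⟨i, h⟩).1 else 0
  have hnf : ∀ (f : Fin n → Fin d) (k : Fin n), nf f k.1 = (f k).1 := by
    intro f k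
    simp [nf]
  have hginj : Set.InjOn g S := by
    rw [← Finset.card_image_iff, ← himg, Finset.card_image_iff]
    exact hinj
  have hinjl : ∀ f : Fin n → Fin d, Set.InjOn f S → ∀ i ∈ l, ∀ j ∈ l, nf f i = nf f j → i = j := by
    intro f hf i hi j hj hij
    obtain ⟨k, hk, rfl⟩ := (hl i).1 hi
    obtain ⟨k', hk', rfl⟩ := (hl j).1 hj
    rw [hnf, hnf] at hij
    rw [hf hk hk' (Fin.ext hij)]
  have hlt : ∀ f : Fin n → Fin d, ∀ i ∈ l, nf f i < d := by
    intro f i hi
    obtain ⟨k, hk, rfl⟩ := (hl i).1 hi
    rw [hnf]
    exact (f k).2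
  have hjm : jm (nf f) l = jm (nf g) l := by
    apply Nat.eq_of_testBit_eq
    intro b
    rw [Bool.eq_iff_iff, jm_testBit _ _ hnd (hinjl f hinj), jm_testBit _ _ hnd (hinjl g hginj)]
    have key : ∀ f : Fin n → Fin d, (∃ i ∈ l, nf f i = b) ↔ ∃ c ∈ S.image f, c.1 = b := by
      intro f
      constructor
      · rintro ⟨i, hi, hib⟩
        obtain ⟨k, hk, rfl⟩ := (hl i).1 hi
        rw [hnf] at hib
        exact ⟨f k, Finset.mem_image_of_mem _ hk, hib⟩
      · rintro ⟨c, hc, hcb⟩
        obtain ⟨k, hk, rfl⟩ := Finset.mem_image.1 hc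
        exact ⟨k.1, (hl _).2 ⟨k, hk, rfl⟩, by rw [hnf]; exact hcb⟩
    rw [key, key, himg]
  have hJ : jm (nf f) l < 2 ^ d := by
    apply Nat.lt_pow_two_of_testBit
    intro b hb
    rw [Bool.eq_false_iff]
    intro h
    obtain ⟨i, hi, hib⟩ := (jm_testBit _ _ hnd (hinjl f hinj) b).1 h
    have := hlt f i hi
    omega
  have hgrp : am d l (jm (nf f) l) ∈ G := by
    apply hG
    unfold groupsOf
    rw [List.mem_flatMap]
    refine ⟨l, ?_, ?_⟩
    · rw [List.mem_sublists]
      exact List.filter_sublist
    · exact List.mem_map_of_mem (List.mem_range.2 hJ)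
  have e1 := mem_am d (nf f) l hnd (hinjl f hinj) (hlt f)
  have e2 := mem_am d (nf g) l hnd (hinjl g hginj) (hlt g)
  rw [← hjm] at e2
  have hitf : ∀ (u : Fin d → ℕ) (f : Fin n → Fin d), u ∈ L → (∀ i ∈ S, f i ∈ famE n d L E u i) →
      hit (l.map fun i => i * d + nf f i) = true := by
    intro u f hu hf
    apply hh _ (L.idxOf u)
    · exact List.idxOf_lt_length_iff.2 hu
    · intro b hb
      obtain ⟨i, hi, rfl⟩ := List.mem_map.1 hb
      obtain ⟨k, hk, rfl⟩ := (hl i).1 hi
      have h1 := hf k hk
      simp only [famE, Finset.mem_filter, Finset.mem_univ, true_and] at h1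
      rw [hnf]
      exact h1
  have heq := hone _ hgrp _ e1 _ e2 (hitf v f hv' hf) (hitf w g hw' hg)
  intro i hi
  have hil : i.1 ∈ l := (hl _).2 ⟨i, hi, rfl⟩
  have h3 := List.map_inj_left.1 heq i.1 hil
  rw [hnf, hnf] at h3
  exact Fin.ext (by omega)

/-! ### planes -/

/-- the plane of the edge `b`: digit `j` says whether the tree number `j` contains the edge -/
def plR (W O D b : ℕ) : ℕ := Nat.land (Nat.shiftRight D (Nat.mul W b)) O

/-- the intersection of planes -/
def andR (W D : ℕ) (e : List ℕ) (a : ℕ) : ℕ :=
  List.rec (motive := fun _ => ℕ → ℕ) (fun a => a)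
    (fun b _ ih a => ih (Nat.land a (Nat.shiftRight D (Nat.mul W b)))) e a

/-- some tree contains the edges of the list -/
def hitR (W O D : ℕ) (e : List ℕ) : Bool :=
  Bool.rec (motive := fun _ => Bool) true false (Nat.beq (andR W D e O) 0)

/-- at most one of the lists is contained in a tree -/
def oneR (h : List ℕ → Bool) (L : List (List ℕ)) (s : Bool) : Bool :=
  List.rec (motive := fun _ => Bool → Bool) (fun _ => true)
    (fun e _ ih s => Bool.rec (motive := fun _ => Bool) (ih s) (Bool.rec (motive := fun _ => Bool) (ih true) false s) (h e))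
    L s

theorem oneR_cons (h : List ℕ → Bool) (e : List ℕ) (L : List (List ℕ)) (s : Bool) :
    oneR h (e :: L) s = Bool.rec (motive := fun _ => Bool) (oneR h L s)
      (Bool.rec (motive := fun _ => Bool) (oneR h L true) false s) (h e) := rfl

theorem oneR_true (h : List ℕ → Bool) (L : List (List ℕ)) (hL : oneR h L true = true) : ∀ e ∈ L, h e = false := by
  induction L with
  | nil => simp
  | cons x L ih =>
    rw [oneR_cons] at hL
    cases hx : h x with
    | true =>
      rw [hx] at hL
      simp at hL
    | false =>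
      rw [hx] at hL
      intro e he
      rcases List.mem_cons.1 he with rfl | he
      · exact hx
      · exact ih hL e he

theorem oneR_sound (h : List ℕ → Bool) (L : List (List ℕ)) (hL : oneR h L false = true) :
    ∀ e ∈ L, ∀ e' ∈ L, h e = true → h e' = true → e = e' := by
  induction L with
  | nil => simp
  | cons x L ih =>
    rw [oneR_cons] at hL
    cases hx : h x with
    | true =>
      rw [hx] at hL
      have h2 := oneR_true h L hL
      intro e he e' he' h3 h4
      rcases List.mem_cons.1 he with rfl | he
      · rcases List.mem_cons.1 he' with rfl | he'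
        · rfl
        · rw [h2 _ he'] at h4
          simp at h4
      · rw [h2 _ he] at h3
        simp at h3
    | false =>
      rw [hx] at hL
      intro e he e' he' h3 h4
      rcases List.mem_cons.1 he with rfl | he
      · rw [hx] at h3
        simp at h3
      · rcases List.mem_cons.1 he' with rfl | he'
        · rw [hx] at h4
          simp at h4
        · exact ih hL e he e' he' h3 h4

/-- all groups -/
def allG (p : List (List ℕ) → Bool) (G : List (List (List ℕ))) : Bool :=
  List.rec (motive := fun _ => Bool) true (fun x _ ih => Bool.rec (motive := fun _ => Bool) false ih (p x)) G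

theorem allG_sound (p : List (List ℕ) → Bool) (G : List (List (List ℕ))) (h : allG p G = true) : ∀ x ∈ G, p x = true := by
  induction G with
  | nil => simp
  | cons x G ih =>
    have h2 : allG p (x :: G) = Bool.rec (motive := fun _ => Bool) false (allG p G) (p x) := rfl
    rw [h2] at h
    obtain ⟨h3, h4⟩ := bool_rec_true h
    intro y hy
    rcases List.mem_cons.1 hy with rfl | hy
    · exact h3
    · exact ih h4 y hy

/-- the mask of the lowest bits of `M` digits -/
def OO (M : ℕ) : ℕ := pk 0 ((List.range M).map fun _ => 1)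

theorem land1 : ∀ x < 64, x &&& 1 = if x.testBit 0 = true then 1 else 0 := by
  decide

theorem range_map_succ {α : Type*} (M : ℕ) (f : ℕ → α) :
    (List.range (M + 1)).map f = f 0 :: (List.range M).map fun j => f (j + 1) := by
  rw [List.range_succ_eq_map, List.map_cons, List.map_map]
  rfl

/-- the digits of a plane -/
theorem land_OO (M x : ℕ) : x &&& OO M = pk 0 ((List.range M).map fun j => if x.testBit (6 * j) = true then 1 else 0) := by
  induction M generalizing x with
  | zero => simp [OO, pk]
  | succ M ih =>
    have h1 : OO (M + 1) = 1 + 64 * OO M := by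
      unfold OO
      rw [range_map_succ]
      rfl
    have h2 : x = x % 64 + 64 * (x / 64) := by omega
    rw [range_map_succ, pk, h1]
    conv_lhs => rw [h2]
    rw [land64 _ _ _ _ (by omega) (by norm_num), ih, land1 _ (by omega)]
    have h3 : (x % 64).testBit 0 = x.testBit 0 := by
      simp
    have h4 : ∀ j, (x / 64).testBit (6 * j) = x.testBit (6 * (j + 1)) := by
      intro j
      rw [show (64 : ℕ) = 2 ^ 6 by norm_num, Nat.testBit_div_two_pow]
      congr 1
      try ring
    simp only [h3, h4]
    try rfl

theorem pk_inj {α : Type*} (l : List α) (f g : α → ℕ) (hf : ∀ t ∈ l, f t < 64) (hg : ∀ t ∈ l, g t < 64)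
    (h : pk 0 (l.map f) = pk 0 (l.map g)) : ∀ t ∈ l, f t = g t := by
  induction l with
  | nil => simp
  | cons t l ih =>
    simp only [List.map_cons, pk] at h
    have h1 := hf t List.mem_cons_self
    have h2 := hg t List.mem_cons_self
    intro s hs
    rcases List.mem_cons.1 hs with rfl | hs
    · omega
    · exact ih (fun t ht => hf t (List.mem_cons_of_mem _ ht)) (fun t ht => hg t (List.mem_cons_of_mem _ ht))
        (by omega) s hs

theorem sumN_pk (n M : ℕ) (f : ℕ → ℕ → ℕ) :
    sumN n (fun i => pk 0 ((List.range M).map fun j => f i j)) = pk 0 ((List.range M).map fun j => sumN n fun i => f i j) := by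
  induction n with
  | zero =>
    have h : ∀ l : List ℕ, pk 0 (l.map fun _ => 0) = 0 := by
      intro l
      induction l with
      | nil => rfl
      | cons t l ih => simp only [List.map_cons, pk, ih, mul_zero, add_zero]
    exact (h _).symm
  | succ n ih =>
    have e1 : ∀ g : ℕ → ℕ, sumN (n + 1) g = sumN n g + g n := fun g => rfl
    simp only [e1]
    rw [ih, ← pk_add]

/-- the edge `b` is in the tree number `j` -/
def edg (W D b j : ℕ) : Bool := D.testBit (W * b + 6 * j)

theorem plR_eq (W M D b : ℕ) :
    plR W (OO M) D b = pk 0 ((List.range M).map fun j => if edg W D b j = true then 1 else 0) := by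
  have h1 : plR W (OO M) D b = (D >>> (W * b)) &&& OO M := rfl
  rw [h1, land_OO]
  congr 1
  apply List.map_congr_left
  intro j _
  rw [Nat.testBit_shiftRight, edg]

theorem hitR_of {W M D : ℕ} {e : List ℕ} {j : ℕ} (hj : j < M) (h : ∀ b ∈ e, edg W D b j = true) :
    hitR W (OO M) D e = true := by
  have key : ∀ (e : List ℕ) (a : ℕ), a.testBit (6 * j) = true → (∀ b ∈ e, edg W D b j = true) →
      (andR W D e a).testBit (6 * j) = true := by
    intro e
    induction e with
    | nil => intro a ha _; exact ha
    | cons b e ih =>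
      intro a ha hb
      have h2 : andR W D (b :: e) a = andR W D e (a &&& (D >>> (W * b))) := rfl
      rw [h2]
      apply ih
      · rw [Nat.testBit_and, ha, Bool.true_and, Nat.testBit_shiftRight]
        exact hb b List.mem_cons_self
      · intro b' hb'
        exact hb b' (List.mem_cons_of_mem _ hb')
  have hO : ∀ (M j : ℕ), j < M → (OO M).testBit (6 * j) = true := by
    intro M
    induction M with
    | zero => intro j hj; omega
    | succ M ih =>
      intro j hj
      have h1 : OO (M + 1) = 1 + 64 * OO M := by
        unfold OO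
        rw [range_map_succ]
        rfl
      rw [h1]
      cases j with
      | zero =>
        rw [Nat.mul_zero, Nat.testBit_zero]
        simp only [decide_eq_true_eq]
        omega
      | succ j =>
        have h3 := ih j (by omega)
        have h4 : OO M = (1 + 64 * OO M) / 2 ^ 6 := by omega
        rw [h4, Nat.testBit_div_two_pow] at h3
        rw [show 6 * (j + 1) = 6 * j + 6 by ring]
        have h5 : 1 + 64 * ((1 + 64 * OO M) / 2 ^ 6) = 1 + 64 * OO M := by omega
        first
          | exact h3
          | (rw [h5] at h3; exact h3)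
          | (rw [add_comm]; exact h3)
  have h1 := key e (OO M) (hO M j hj) h
  unfold hitR
  cases hb : Nat.beq (andR W D e (OO M)) 0 with
  | false => rfl
  | true =>
    rw [Nat.eq_of_beq_eq_true hb] at h1
    simp at h1

/-! ### the check of a table -/

/-- the degrees: `dg` is the list (for each colour) of the packed degrees -/
def dgB (n e W O D : ℕ) (dg : List ℕ) : Bool :=
  allN e fun c => Nat.beq (sumN n fun i => plR W O D (Nat.add (Nat.mul i e) c)) (dg.getD c 0)

/-- the full tree of the label `i` at the position number `j` -/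
def fuB (e W D i j : ℕ) : Bool :=
  allN e fun c => Nat.beq (Nat.land (Nat.shiftRight D (Nat.add (Nat.mul W (Nat.add (Nat.mul i e) c)) (Nat.mul 6 j))) 1) 1

/-- the certificate: `js` is the list of the numbers of the positions of the labels, `D` the table -/
def taC (n e M W O : ℕ) (G : List (List (List ℕ))) (dg pcs : List ℕ) (K : ℕ) (js : List ℕ) (D : ℕ) : Bool :=
  Bool.rec (motive := fun _ => Bool) false
    (Bool.rec (motive := fun _ => Bool) false
      (Bool.rec (motive := fun _ => Bool) false
        (Bool.rec (motive := fun _ => Bool) false (allG (fun g => oneR (hitR W O D) g false) G)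
          (dgB n e W O D dg))
        (allN n fun i => Bool.rec (motive := fun _ => Bool) false (fuB e W D i (js.getD i 0))
          (Nat.ble (Nat.succ (js.getD i 0)) M)))
      (Nat.beq (sumN n fun i => K5 (Nat.pred e) (pcs.getD (js.getD i 0) 0)) K))
    (incB n fun i => k5 (Nat.pred e) (pcs.getD (js.getD i 0) 0))

theorem crt_of_taC {m e M W O K : ℕ} (he : m + 1 < 64) (hM : (PP m e).length = M) (hO : O = OO M)
    (G : List (List (List ℕ))) (hG : ∀ x ∈ groupsOf (m + 1) e, x ∈ G) (dg pcs : List ℕ)
    (hdg : dg = (List.range e).map fun c => pk 0 ((List.range M).map fun j => if h : c < e then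
      ((PP m e).getD j 0) ⟨c, h⟩ + 1 else 0))
    (hpcs : pcs = (PP m e).map code) (js : List ℕ) (D : ℕ) (h : taC (m + 1) e M W O G dg pcs K js D = true) :
    Crt (m + 1) e K := by
  unfold taC at h
  obtain ⟨h1, h⟩ := bool_rec_true h
  obtain ⟨h2, h⟩ := bool_rec_true h
  obtain ⟨h3, h⟩ := bool_rec_true h
  obtain ⟨h4, h5⟩ := bool_rec_true h
  subst hO
  have hlt : ∀ i < m + 1, js.getD i 0 < M := by
    intro i hi
    exact Nat.le_of_ble_eq_true (bool_rec_true (allN_sound _ _ h3 i hi)).1
  let u : Fin (m + 1) → Fin e → ℕ := fun i => (PP m e).getD (js.getD i.1 0) 0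
  have hu : ∀ i, u i ∈ PP m e := by
    intro i
    have h6 := hlt i.1 i.2
    rw [← hM] at h6
    show (PP m e).getD (js.getD i.1 0) 0 ∈ PP m e
    rw [List.getD_eq_getElem _ _ h6]
    exact List.getElem_mem h6
  have hidx : ∀ j (hj : j < M), (PP m e).idxOf ((PP m e).getD j 0) = j := by
    intro j hj
    rw [← hM] at hj
    rw [List.getD_eq_getElem _ _ hj]
    exact (nodup_PP m e).idxOf_getElem j hj
  have hT : TRealized (m + 1) e u := by
    refine ⟨famE (m + 1) e (PP m e) (edg W D), ?_, fun k => (mem_PP _).1 (hu k), ?_⟩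
    · refine treeFam_of_hit (PP m e) (fun v hv => (mem_PP v).2 (by simpa using hv)) (edg W D) (hitR W (OO M) D) ?_ G hG ?_ ?_
      · intro e j hj he
        rw [hM] at hj
        exact hitR_of hj he
      · intro g hg
        exact oneR_sound _ _ (allG_sound _ _ h5 g hg)
      · intro v hv c
        have h6 := Nat.eq_of_beq_eq_true (allN_sound _ _ h4 c.1 c.2)
        simp only [plR_eq] at h6
        rw [sumN_pk, hdg] at h6
        have h7 : ((List.range e).map fun c => pk 0 ((List.range M).map fun j => if h : c < e then
            ((PP m e).getD j 0) ⟨c, h⟩ + 1 else 0)).getD c.1 0 = pk 0 ((List.range M).map fun j =>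
            ((PP m e).getD j 0) c + 1) := by
          rw [List.getD_eq_getElem _ _ (by simp)]
          simp
        rw [h7] at h6
        have hj : (PP m e).idxOf v < M := by
          rw [← hM]
          exact List.idxOf_lt_length_iff.2 hv
        have hs : ∀ j, (sumN (m + 1) fun i => if edg W D (Nat.add (Nat.mul i e) c.1) j = true then 1 else 0) ≤ m + 1 := by
          intro j
          rw [sumN_eq]
          calc _ ≤ ∑ _i : Fin (m + 1), 1 := Finset.sum_le_sum fun i _ => by split_ifs <;> norm_num
            _ = m + 1 := by simp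
        have hp : ∀ j ∈ List.range M, ((PP m e).getD j 0) c + 1 < 64 := by
          intro j hj
          rw [List.mem_range, ← hM] at hj
          rw [List.getD_eq_getElem _ _ hj]
          have h8 := (mem_PP _).1 (List.getElem_mem hj)
          have h9 := le_of_sum h8.le c
          omega
        have h8 := pk_inj _ _ _ (fun j _ => lt_of_le_of_lt (hs j) he) hp h6 _ (List.mem_range.2 hj)
        have h9 : (PP m e).getD ((PP m e).idxOf v) 0 = v := by
          rw [List.getD_eq_getElem _ _ (by rw [hM]; exact hj)]
          exact List.getElem_idxOf _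
        rw [h9, sumN_eq] at h8
        rw [← h8, Finset.card_filter]
        refine Finset.sum_congr rfl fun i _ => ?_
        simp only [famE, Finset.mem_filter, Finset.mem_univ, true_and]
        rfl
    · intro k
      ext c
      simp only [famE, Finset.mem_filter, Finset.mem_univ, true_and, iff_true]
      have h6 := (bool_rec_true (allN_sound _ _ h3 k.1 k.2)).2
      have h7 := Nat.eq_of_beq_eq_true (allN_sound _ _ h6 c.1 c.2)
      have h8 : (PP m e).idxOf (u k) = js.getD k.1 0 := hidx _ (hlt k.1 k.2)
      rw [h8]
      unfold edg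
      rw [Nat.testBit_eq_decide_div_mod_eq]
      rw [decide_eq_true_eq]
      have h9 : (D >>> (W * (k.1 * e + c.1) + 6 * js.getD k.1 0)) &&& 1 = 1 := h7
      rw [Nat.and_one_is_mod, Nat.shiftRight_eq_div_pow] at h9
      exact h9
  refine crt_of_keys u hT (fun i => pcs.getD (js.getD i 0) 0) ?_ h1 h2
  intro i
  have h6 := hlt i.1 i.2
  rw [← hM] at h6
  show code ((PP m e).getD (js.getD i.1 0) 0) = pcs.getD (js.getD i.1 0) 0
  generalize js.getD i.1 0 = j at h6 ⊢
  rw [hpcs, List.getD_eq_getElem _ _ h6, List.getD_eq_getElem _ _ (by simpa using h6), List.getElem_map]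

end Pool.Agent.Helper96.TS
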